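import Pool.Agent.Helper7.Cohomology

/-!
Definitions for the rigidity theorem (a homomorphism of the complex tori respects the algebraic
de Rham structures).
-/

namespace Pool.Agent.Helper7.AF

open Pool.Agent.GPC

/-- the variables of the polynomial differential system -/
abbrev VV (A B : AbVar) : Type :=
  (Fin (A.N + 1) ⊕ Fin (B.N + 1)) ⊕ ((Fin A.g ⊕ Fin B.g) ⊕ Fin A.g)

/-- the functions `θ^A_i / θ^A_i0`, `θ^B_j / θ^B_j0 ∘ Φ`, `∂_b log θ^A_i0` minus its value at `0`,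
`∂_a log θ^B_j0 ∘ Φ` minus its value at `0`, and `z_b` -/
noncomputable def sysF (A B : AbVar) (i0 : Fin (A.N + 1)) (j0 : Fin (B.N + 1))
    (Φ : Matrix (Fin B.g) (Fin A.g) ℂ) (z : Fin A.g → ℂ) : VV A B → ℂ
  | .inl (.inl i) => A.θ i z / A.θ i0 z
  | .inl (.inr j) => B.θ j (Φ.mulVec z) / B.θ j0 (Φ.mulVec z)
  | .inr (.inl (.inl b)) => pd b (A.θ i0) z / A.θ i0 z - pd b (A.θ i0) 0 / A.θ i0 0
  | .inr (.inl (.inr a)) =>
      pd a (B.θ j0) (Φ.mulVec z) / B.θ j0 (Φ.mulVec z) - pd a (B.θ j0) 0 / B.θ j0 0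
  | .inr (.inr b) => z b

/-- the value of a polynomial in `Y` over the polynomials in the `X_a` -/
noncomputable def ev2 {g : ℕ} (P : Polynomial (MvPolynomial (Fin g) ℂ)) (x : Fin g → ℂ) (y : ℂ) :
    ℂ := (P.map (MvPolynomial.eval x)).eval y

/-- the functions `θ_(s a) / θ_i0`, `a < g`, are algebraically independent -/
def AlgInd (A : AbVar) (i0 : Fin (A.N + 1)) (s : Fin A.g → Fin (A.N + 1)) : Prop :=
  ∀ R : MvPolynomial (Fin A.g) ℂ, R ≠ 0 →
    ∃ z, A.θ i0 z ≠ 0 ∧ MvPolynomial.eval (fun a => A.θ (s a) z / A.θ i0 z) R ≠ 0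

end Pool.Agent.Helper7.AF
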