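import Pool.Agent.Helper7.CMTypes2
import Pool.Agent.Helper7.U.UTypes

/-!
Definitions for the theorem on all abelian varieties of dimension at most four.
-/

namespace Pool.Agent.GPC

/-- `End(A) ⊗ ℚ` is the imaginary quadratic field `ℚ(√-d)`. -/
def AbVar.IsQuadEnd (A : AbVar) (d : ℚ) : Prop :=
  0 < d ∧ ∃ J, A.IsEnd J ∧ (∀ v, J (J v) = (-(d : ℂ)) • v) ∧
    ∀ f, A.IsEnd f → ∃ a b : ℚ, ∀ v, f v = (a : ℂ) • v + (b : ℂ) • J v

section product

variable {I : Type} [Fintype I] (A : I → AbVar) (n : I → ℕ)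

omit [Fintype I] in
/-- `f` is the action on `H_1(X, ℂ)` of an endomorphism (tensor `ℚ`) of `X = ∏_i A_i^{n_i}`: it is
linear and respects the Betti and de Rham structures and the Hodge filtration. -/
structure IsEndo (f : H1 A n → H1 A n) : Prop where
  linear : IsLinearMap ℂ f
  betti : ∀ v, IsBetti A n v → IsBetti A n (f v)
  deRham : ∀ v, IsDeRham A n v → IsDeRham A n (f v)
  hodge : ∀ v, IsFil A n v → IsFil A n (f v)

omit [Fintype I] in
/-- `K = ℚ(J)`, `J^2 = -d`, is an imaginary quadratic field of endomorphisms (tensor `ℚ`) of `X`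
which does not act by scalars on `Lie X`, and `J` commutes with all endomorphisms, or `X = A_i` and
all self-adjoint endomorphisms (tensor `ℚ`) of `A_i` are rational numbers. -/
def IsWeilStructure (d : ℚ) (J : H1 A n → H1 A n) : Prop :=
  0 < d ∧ IsEndo A n J ∧ (∀ v, J (J v) = (-(d : ℂ)) • v) ∧
  (¬ ∃ c : ℂ, ∀ v, IsFil A n v → J v = c • v) ∧
  ((∀ f, IsEndo A n f → ∀ v, J (f v) = f (J v)) ∨
    ∃ i, (∀ j, j = i) ∧ n i = 1 ∧
      ∀ f, (A i).IsEnd f → (A i).IsAdjoint f f → ∃ q : ℚ, ∀ v, f v = (q : ℂ) • v)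

/-- `w` is a Weil class on the abelian fourfold `X = ∏_i A_i^{n_i}`: a class in
`H^4(X, ℚ(2))` which is in the image of `⋀^4_K H^1(X, ℚ)` for a field `K = ℚ(J)` as in
`IsWeilStructure`, i.e. such that `w(J v_1, v_2, v_3, v_4) = w(v_1, J v_2, v_3, v_4)` and so on. -/
def IsWeilClass (k : ℕ) (w : Form A n (2 * k)) : Prop :=
  (k = 2 ∧ ∑ i, n i * (A i).g = 4) ∧
  (∀ v : Fin (2 * k) → H1 A n, (∀ r, IsBetti A n (v r)) →
    ∃ c : ℚ, w v = (2 * Real.pi * Complex.I) ^ k * c) ∧
  ∃ (d : ℚ) (J : H1 A n → H1 A n), IsWeilStructure A n d J ∧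
    ∀ v r s, w (Function.update v r (J (v r))) = w (Function.update v s (J (v s)))

/-- `α` is the sum of a divisorial class and of Weil classes. -/
def IsDivisorialWeil (k : ℕ) (α : Form A n (2 * k)) : Prop :=
  ∃ (m : ℕ) (w : Fin m → Form A n (2 * k)), (∀ r, IsWeilClass A n k (w r)) ∧
    IsDivisorial A n k (α - ∑ r, w r)

end product

/-- An action `ρ` of the CM field `K` on `H_1(A)` through endomorphisms of `A` (tensor `ℚ`), with
Rosati involution complex conjugation, such that only the elements of `K` commute with the real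
elements of `K` among the endomorphisms of `A` (tensor `ℚ`). -/
structure AbVar.IsHermMult (A : AbVar) (K : Type) [Field K] [NumberField K]
    [NumberField.IsCMField K] (ρ : K → A.H1 → A.H1) : Prop where
  one : ∀ v, ρ 1 v = v
  mul : ∀ x y v, ρ (x * y) v = ρ x (ρ y v)
  add : ∀ x y v, ρ (x + y) v = ρ x v + ρ y v
  endo : ∀ x, A.IsEnd (ρ x)
  rosati : ∀ x, A.IsAdjoint (ρ x) (ρ (cmConj K x))
  centralizer : ∀ f, A.IsEnd f → (∀ x, cmConj K x = x → ∀ v, f (ρ x v) = ρ x (f v)) →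
    ∃ x, ∀ v, f v = ρ x v

/-- An action `ρ` of the CM field `K` on `H_1(A)` through endomorphisms of `A` (tensor `ℚ`), with
Rosati involution complex conjugation, and an endomorphism `j` with `j x = conj(x) j` for `x` in
`K`, `j^2 = b` in `K`, `j' = -j`, such that only the elements of `K + K j` commute with the real
elements of `K` among the endomorphisms of `A` (tensor `ℚ`). -/
structure AbVar.IsQuatMult (A : AbVar) (K : Type) [Field K] [NumberField K]
    [NumberField.IsCMField K] (ρ : K → A.H1 → A.H1) (j : A.H1 → A.H1) (b : K) : Prop where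
  one : ∀ v, ρ 1 v = v
  mul : ∀ x y v, ρ (x * y) v = ρ x (ρ y v)
  add : ∀ x y v, ρ (x + y) v = ρ x v + ρ y v
  endo : ∀ x, A.IsEnd (ρ x)
  endo_j : A.IsEnd j
  conj_j : ∀ x v, j (ρ x v) = ρ (cmConj K x) (j v)
  sq_j : ∀ v, j (j v) = ρ b v
  rosati : ∀ x, A.IsAdjoint (ρ x) (ρ (cmConj K x))
  rosati_j : ∀ u v, A.pol (j u) v = - A.pol u (j v)
  ne_zero : b ≠ 0
  centralizer : ∀ f, A.IsEnd f → (∀ x, cmConj K x = x → ∀ v, f (ρ x v) = ρ x (f v)) →
    ∃ x y, ∀ v, f v = ρ x v + ρ y (j v)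

end Pool.Agent.GPC
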