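import Pool.Agent.Helper7.Bridge2

/-!
Rational bilinear forms are represented by rational endomorphisms.
-/

namespace Pool.Agent.Helper7

open Module

variable {κ : Type} [Fintype κ] [DecidableEq κ] {ϖ : ℂ} (P : PData κ ϖ)

/-- Rational bilinear forms are represented by rational endomorphisms. -/
theorem exists_rat_rep (β : (κ → ℂ) →ₗ[ℂ] (κ → ℂ) →ₗ[ℂ] ℂ)
    (hβ : ∀ u ∈ P.Q, ∀ v ∈ P.Q, ∃ q : ℚ, β u v = ϖ * q) :
    ∃ F : Module.End ℂ (κ → ℂ), (∀ u v, P.ψ u (F v) = β u v) ∧ ∀ v ∈ P.Q, F v ∈ P.Q := by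
  classical
  have h1 : ∀ p q, ∃ a : ℚ, P.ψ (P.bB p) (P.bB q) = ϖ * a :=
    fun p q => P.hψQ _ (P.basis_mem p) _ (P.basis_mem q)
  have h2 : ∀ p q, ∃ a : ℚ, β (P.bB p) (P.bB q) = ϖ * a :=
    fun p q => hβ _ (P.basis_mem p) _ (P.basis_mem q)
  choose M hM using h1
  choose B hB using h2
  have hdet : (Matrix.of M).det ≠ 0 := by
    intro h0
    obtain ⟨v, hv0, hv⟩ := Matrix.exists_mulVec_eq_zero_iff.mpr h0
    have hw : ∑ q, (v q : ℂ) • P.bB q = 0 := by
      apply P.hψnd
      intro u
      rw [P.hψalt, neg_eq_zero]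
      have h3 : (P.ψ.flip (∑ q, (v q : ℂ) • P.bB q)) = 0 := by
        apply P.bB.ext
        intro p
        rw [LinearMap.flip_apply, map_sum, LinearMap.zero_apply]
        have h4 := congrFun hv p
        rw [Matrix.mulVec, dotProduct, Pi.zero_apply] at h4
        calc ∑ q, P.ψ (P.bB p) ((v q : ℂ) • P.bB q) = ϖ * ((∑ q, Matrix.of M p q * v q : ℚ) : ℂ) := by
              rw [Rat.cast_sum, Finset.mul_sum]
              refine Finset.sum_congr rfl fun q _ => ?_
              rw [map_smul, hM, Matrix.of_apply, smul_eq_mul]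
              push_cast; ring
          _ = 0 := by rw [h4, Rat.cast_zero, mul_zero]
      exact congrArg (fun f => f u) h3
    apply hv0
    funext q
    have h5 := congrArg (fun w => P.bB.repr w q) hw
    simp only [map_sum, map_smul, Basis.repr_self, Finsupp.smul_single, smul_eq_mul, mul_one,
      map_zero, Finsupp.coe_zero, Pi.zero_apply, Finsupp.coe_finsetSum, Finset.sum_apply,
      Finsupp.single_apply, Finset.sum_ite_eq', Finset.mem_univ, if_true] at h5
    rw [Pi.zero_apply]
    exact_mod_cast h5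
  set N : Matrix P.ι P.ι ℚ := (Matrix.of M)⁻¹ * Matrix.of B with hN
  have hMN : Matrix.of M * N = Matrix.of B := by
    rw [hN, ← Matrix.mul_assoc, Matrix.mul_nonsing_inv _ (isUnit_iff_ne_zero.mpr hdet),
      Matrix.one_mul]
  let F : Module.End ℂ (κ → ℂ) := P.bB.constr ℂ (fun q => ∑ r, (N r q : ℂ) • P.bB r)
  have hF : ∀ q, F (P.bB q) = ∑ r, (N r q : ℂ) • P.bB r := fun q => Basis.constr_basis _ _ _ _
  refine ⟨F, fun u v => ?_, fun v hv => ?_⟩
  · have h3 : P.ψ.compl₂ F = β := by
      apply P.bB.ext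
      intro p
      apply P.bB.ext
      intro q
      rw [LinearMap.compl₂_apply, hF, map_sum, hB]
      have h4 := congrFun (congrFun hMN p) q
      rw [Matrix.mul_apply] at h4
      rw [show B p q = Matrix.of B p q from rfl, ← h4, Rat.cast_sum, Finset.mul_sum]
      refine Finset.sum_congr rfl fun r _ => ?_
      rw [map_smul, hM, Matrix.of_apply, smul_eq_mul]
      push_cast; ring
    rw [← h3, LinearMap.compl₂_apply]
  · unfold PData.Q at hv
    induction hv using Submodule.span_induction with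
    | mem x hx =>
      obtain ⟨q, rfl⟩ := hx
      rw [hF]
      exact Submodule.sum_mem _ fun r _ => P.rat_smul_mem _ _ (P.basis_mem r)
    | zero => rw [map_zero]; exact Submodule.zero_mem _
    | add x y _ _ hx hy => rw [map_add]; exact Submodule.add_mem _ hx hy
    | smul a x _ hx =>
      have h1 : a • x = (a : ℂ) • x := by
        rw [← algebraMap_smul ℂ a x]; rfl
      rw [h1, map_smul]
      exact P.rat_smul_mem _ _ hx

end Pool.Agent.Helper7
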