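import Pool.Agent.Helper7.AF.Defs
import Pool.Agent.Helper7.AF.RatRep
import Pool.Agent.Helper7.U.MainU

/-!
Abelian varieties with an action of a CM field of degree equal to the dimension, such that the
centraliser of its real subfield is the field itself: there are pure and mixed places.
-/

namespace Pool.Agent.Helper7

open Module NumberField Pool.Agent.GPC Pool.Agent.Helper84

set_option linter.unusedSectionVars false

/-- the statement of rigidity for endomorphisms -/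
def Rigid (A : AbVar) : Prop := ∀ f : A.H1 → A.H1, IsLinearMap ℂ f →
  (∀ v, A.IsBetti v → A.IsBetti (f v)) → (∀ v, A.IsFil v → A.IsFil (f v)) →
  ∀ v, A.IsDeRham v → A.IsDeRham (f v)

/-- the action as ring homomorphism -/
noncomputable def heRho {A : AbVar} {K : Type} [Field K] [NumberField K] [IsCMField K]
    {ρ : K → A.H1 → A.H1} (C : A.IsHermMult K ρ) : K →+* Module.End ℂ A.H1 where
  toFun x := IsLinearMap.mk' _ (C.endo x).linear
  map_one' := LinearMap.ext C.one
  map_mul' x y := LinearMap.ext (C.mul x y)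
  map_add' x y := LinearMap.ext (C.add x y)
  map_zero' := LinearMap.ext fun v => by
    have h := C.add 0 0 v
    rw [add_zero] at h
    have h2 : ρ 0 v = 0 := by
      have h3 := congrArg (fun w => w - ρ 0 v) h
      simp only [sub_self, add_sub_cancel_right] at h3
      exact h3.symm
    exact h2

theorem nonempty_UFh (A : AbVar) (K : Type) [Field K] [NumberField K] [IsCMField K]
    (ρ : K → A.H1 → A.H1) (C : A.IsHermMult K ρ) (r : ℕ) (hr : finrank ℚ K * r = 2 * A.g) :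
    ∃ F : UF (pData A) K r, (∀ x v, F.ρ x v = ρ x v) ∧ F.cc = cmConj K := by
  have hQ : ∀ x, ∀ v ∈ (pData A).Q, heRho C x v ∈ (pData A).Q :=
    fun x v hv => (isDRB_of_isEnd A _ (C.endo x)).rat v hv
  obtain ⟨lam, h1, h2, eb, h3⟩ := exists_Kbasis (pData A) (heRho C) hQ r
    (by rw [card_index, hr])
  exact ⟨{  ρ := heRho C
            hρ := fun x => isDRB_of_isEnd A _ (C.endo x)
            cc := cmConj K
            hcc := fun σ x => IsCMField.complexEmbedding_complexConj K σ x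
            hros := fun x u v => C.rosati x u v
            hcen := fun f hf hc => C.centralizer f (isEnd_of_isDRB A f hf) (fun x _ v => hc x v)
            hnd := hnd_pData A
            lam := lam
            lam_rat := h1
            gen := h2
            eb := eb
            heb := h3 }, fun x v => rfl, rfl⟩

section fil

variable (A : AbVar)

lemma fil_of_perp {v : A.H1} (h : ∀ u, A.IsFil u → A.pol u v = 0) : A.IsFil v := by
  intro a
  have h1 := h (fun s => Sum.elim (fun _ => (0 : ℂ)) (fun b => if b = a then 1 else 0) s)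
    (fun b => rfl)
  rw [AbVar.pol, Finset.sum_eq_single a] at h1
  · simp only [Sum.elim_inl, Sum.elim_inr, if_true, zero_mul, mul_one, zero_sub, neg_eq_zero] at h1
    exact h1
  · intro b _ hb
    simp only [Sum.elim_inl, Sum.elim_inr, if_neg hb, zero_mul, mul_zero, sub_zero]
  · intro h; exact absurd (Finset.mem_univ _) h

end fil

variable {A : AbVar} {K : Type} [Field K] [NumberField K] (F : UF (pData A) K 2)

/-- the determinant at a place -/
noncomputable def dt (σ : K →+* ℂ) : A.H1 →ₗ[ℂ] A.H1 →ₗ[ℂ] ℂ :=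
  LinearMap.mk₂ ℂ (fun u v => F.co σ 0 u * F.co σ 1 v - F.co σ 1 u * F.co σ 0 v)
    (fun u u' v => by rw [map_add, map_add]; ring)
    (fun c u v => by rw [map_smul, map_smul, smul_eq_mul, smul_eq_mul, smul_eq_mul]; ring)
    (fun u v v' => by rw [map_add, map_add]; ring)
    (fun c u v => by rw [map_smul, map_smul, smul_eq_mul, smul_eq_mul, smul_eq_mul]; ring)

lemma dt_apply (σ : K →+* ℂ) (u v : A.H1) :
    dt F σ u v = F.co σ 0 u * F.co σ 1 v - F.co σ 1 u * F.co σ 0 v := rfl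

/-- the rational form given by the determinants -/
noncomputable def dtr : A.H1 →ₗ[ℂ] A.H1 →ₗ[ℂ] ℂ :=
  (2 * Real.pi * Complex.I : ℂ) • ∑ σ : K →+* ℂ, dt F σ

lemma dtr_apply (u v : A.H1) : dtr F u v = (2 * Real.pi * Complex.I : ℂ) *
    ∑ σ : K →+* ℂ, (F.co σ 0 u * F.co σ 1 v - F.co σ 1 u * F.co σ 0 v) := by
  rw [dtr, LinearMap.smul_apply, LinearMap.smul_apply, LinearMap.sum_apply, LinearMap.sum_apply,
    smul_eq_mul]
  rfl

lemma dtr_rat (u : A.H1) (hu : u ∈ (pData A).Q) (v : A.H1) (hv : v ∈ (pData A).Q) :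
    ∃ q : ℚ, dtr F u v = (2 * Real.pi * Complex.I : ℂ) * q := by
  obtain ⟨x, rfl⟩ := F.gen u hu
  obtain ⟨y, rfl⟩ := F.gen v hv
  refine ⟨Algebra.trace ℚ K (x 0 * y 1 - x 1 * y 0), ?_⟩
  rw [dtr_apply, ← sum_emb]
  congr 1
  refine Finset.sum_congr rfl fun σ _ => ?_
  rw [F.coK, F.coK, F.coK, F.coK, map_sub, map_mul, map_mul]

lemma co_rho (σ : K →+* ℂ) (a : Fin 2) (x : K) (v : A.H1) :
    F.co σ a (F.ρ x v) = σ x * F.co σ a v := by
  have h : ∀ v, (F.co σ a ∘ₗ F.ρ x) v = (σ x • F.co σ a) v := by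
    refine F.ext_e _ _ (fun τ j => ?_)
    rw [LinearMap.comp_apply, F.rho_e, map_smul, LinearMap.smul_apply, F.co_e]
    split_ifs with h
    · rw [h.1]
    · rw [smul_zero, smul_zero]
  exact h v

lemma dtr_rho (x : K) (u v : A.H1) : dtr F (F.ρ x u) v = dtr F u (F.ρ x v) := by
  rw [dtr_apply, dtr_apply]
  congr 1
  refine Finset.sum_congr rfl fun σ _ => ?_
  rw [co_rho, co_rho, co_rho, co_rho]
  ring

/-- two vectors of the filtration with non-zero determinant at a place -/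
lemma dt_fil {σ : K →+* ℂ} (h : ¬ ∀ v, A.IsFil (proj F.ρ σ v)) {u v : A.H1} (hu : A.IsFil u)
    (hv : A.IsFil v) : F.co σ 0 u * F.co σ 1 v - F.co σ 1 u * F.co σ 0 v = 0 := by
  by_contra hd
  apply h
  have hρ : ∀ x, A.IsEnd (F.ρ x) := fun x => isEnd_of_isDRB A _ (F.hρ x)
  have hu' := proj_fil A F.ρ hρ σ hu
  have hv' := proj_fil A F.ρ hρ σ hv
  rw [F.proj_eq, Fin.sum_univ_two] at hu' hv'
  set d := F.co σ 0 u * F.co σ 1 v - F.co σ 1 u * F.co σ 0 v with hdd
  have h0 : A.IsFil (F.e σ 0) := by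
    have h1 := fil_smul A d⁻¹ (fil_add A (fil_smul A (F.co σ 1 v) hu')
      (fil_smul A (-F.co σ 1 u) hv'))
    have h2 : d⁻¹ • (F.co σ 1 v • (F.co σ 0 u • F.e σ 0 + F.co σ 1 u • F.e σ 1) +
        (-F.co σ 1 u) • (F.co σ 0 v • F.e σ 0 + F.co σ 1 v • F.e σ 1)) =
        (d⁻¹ * d) • F.e σ 0 := by
      rw [hdd]; module
    rw [h2, inv_mul_cancel₀ hd, one_smul] at h1
    exact h1
  have h1 : A.IsFil (F.e σ 1) := by
    have h1 := fil_smul A d⁻¹ (fil_add A (fil_smul A (-F.co σ 0 v) hu')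
      (fil_smul A (F.co σ 0 u) hv'))
    have h2 : d⁻¹ • ((-F.co σ 0 v) • (F.co σ 0 u • F.e σ 0 + F.co σ 1 u • F.e σ 1) +
        F.co σ 0 u • (F.co σ 0 v • F.e σ 0 + F.co σ 1 v • F.e σ 1)) =
        (d⁻¹ * d) • F.e σ 1 := by
      rw [hdd]; module
    rw [h2, inv_mul_cancel₀ hd, one_smul] at h1
    exact h1
  intro w
  rw [F.proj_eq, Fin.sum_univ_two]
  exact fil_add A (fil_smul A _ h0) (fil_smul A _ h1)

/-- there is a mixed place -/
theorem exists_not_pure (hrig : Rigid A) (hCM : ∃ x, F.cc x ≠ x)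
    (hcen : ∀ f : Module.End ℂ A.H1, A.IsEnd f →
      (∀ x, F.cc x = x → ∀ v, f (F.ρ x v) = F.ρ x (f v)) → ∃ x, ∀ v, f v = F.ρ x v) :
    ∃ σ : K →+* ℂ, IsDefAt A F.ρ σ := by
  by_contra hcon
  push Not at hcon
  have hρ : ∀ x, A.IsEnd (F.ρ x) := fun x => isEnd_of_isDRB A _ (F.hρ x)
  have hfil : ∀ σ : K →+* ℂ, ¬ ∀ v, A.IsFil (proj F.ρ σ v) := fun σ h => hcon σ (Or.inl h)
  obtain ⟨J, hJ, hJQ⟩ := exists_rat_rep (pData A) (dtr F)
    (fun u hu v hv => dtr_rat F u hu v hv)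
  have hnd := (pData A).hψnd
  have hnd' : ∀ v, (∀ u, (pData A).ψ u v = 0) → v = 0 := by
    intro v h
    apply hnd
    intro u
    rw [(pData A).hψalt, h, neg_zero]
  have hJρ : ∀ x v, J (F.ρ x v) = F.ρ (F.cc x) (J v) := by
    intro x v
    rw [← sub_eq_zero]
    apply hnd'
    intro u
    rw [map_sub, hJ, ← F.hros, hJ, dtr_rho, sub_self]
  have hJF : ∀ v, A.IsFil v → A.IsFil (J v) := by
    intro v hv
    apply fil_of_perp
    intro u hu
    have h1 := hJ u v
    rw [pData_ψ] at h1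
    rw [h1, dtr_apply, Finset.sum_eq_zero, mul_zero]
    intro σ _
    exact dt_fil F (hfil σ) hu hv
  have hJB : ∀ v, A.IsBetti v → A.IsBetti (J v) := by
    intro v hv
    rw [← mem_pData_Q] at hv ⊢
    exact hJQ v hv
  have hJE : A.IsEnd J := ⟨J.isLinear, hJB, hrig J J.isLinear hJB hJF, hJF⟩
  obtain ⟨x, hx⟩ := hcen J hJE (fun x hx v => by rw [hJρ, hx])
  obtain ⟨y, hy⟩ := hCM
  have σ : K →+* ℂ := Classical.choice (inferInstance : Nonempty (K →+* ℂ))
  have h1 : J (F.ρ y (F.e σ 1)) = F.ρ y (J (F.e σ 1)) := by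
    rw [hx, hx, ← Module.End.mul_apply, ← Module.End.mul_apply, ← map_mul, ← map_mul, mul_comm x y]
  rw [hJρ] at h1
  have h2 : F.ρ (F.cc y - y) (J (F.e σ 1)) = 0 := by
    rw [map_sub, LinearMap.sub_apply, h1, sub_self]
  have h3 : J (F.e σ 1) = 0 := by
    have h4 := congrArg (F.ρ (F.cc y - y)⁻¹) h2
    rw [← Module.End.mul_apply, ← map_mul, inv_mul_cancel₀ (sub_ne_zero.mpr hy), map_one,
      map_zero] at h4
    exact h4
  have h4 := hJ (F.e σ 0) (F.e σ 1)
  rw [h3, map_zero, dtr_apply, Finset.sum_eq_single σ] at h4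
  · rw [F.co_e, F.co_e, F.co_e, F.co_e, if_pos ⟨rfl, rfl⟩, if_pos ⟨rfl, rfl⟩,
      if_neg (fun h => by simpa using h.2), zero_mul, sub_zero, mul_one, mul_one] at h4
    exact Complex.two_pi_I_ne_zero h4.symm
  · intro τ _ hτ
    have z : ∀ a b, F.co τ a (F.e σ b) = 0 := fun a b => by
      rw [F.co_e, if_neg (fun h => hτ h.1)]
    rw [z, z, z, z, zero_mul, sub_zero]
  · intro h; exact absurd (Finset.mem_univ _) h

/-- there is a pure place -/
theorem exists_not_mixed (hrig : Rigid A)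
    (hcen : ∀ f : Module.End ℂ A.H1, A.IsEnd f →
      (∀ x v, f (F.ρ x v) = F.ρ x (f v)) → ∃ x, ∀ v, f v = F.ρ x v) :
    ∃ σ : K →+* ℂ, ¬ IsDefAt A F.ρ σ := by
  classical
  by_contra hcon
  push Not at hcon
  have hρ : ∀ x, A.IsEnd (F.ρ x) := fun x => isEnd_of_isDRB A _ (F.hρ x)
  let t : Matrix (Fin 2) (Fin 2) K := !![1, 0; 0, 0]
  let f : Module.End ℂ A.H1 := F.ofMat t
  have hfp : ∀ (σ : K →+* ℂ) v, f (proj F.ρ σ v) = proj F.ρ σ (f v) := fun σ v =>
    (F.ofMat_comm t).proj σ v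
  have hfF : ∀ v, A.IsFil v → A.IsFil (f v) := by
    intro v hv
    have h1 : f v = ∑ σ : K →+* ℂ, proj F.ρ σ (f (proj F.ρ σ v)) := by
      have h2 : v = ∑ σ : K →+* ℂ, proj F.ρ σ v := by
        rw [← LinearMap.sum_apply, sum_proj]; rfl
      conv_lhs => rw [h2, map_sum]
      refine Finset.sum_congr rfl fun σ _ => ?_
      rw [← hfp, proj_idem]
    rw [h1]
    refine fil_sum A _ _ fun σ => ?_
    rcases hcon σ with h | h
    · exact h _
    · rw [h v (proj_fil A F.ρ hρ σ hv), map_zero, map_zero]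
      exact fil_zero A
  have hfB : ∀ v, A.IsBetti v → A.IsBetti (f v) := by
    intro v hv
    rw [← mem_pData_Q] at hv ⊢
    exact F.ofMat_rat t v hv
  have hfE : A.IsEnd f := ⟨f.isLinear, hfB, hrig f f.isLinear hfB hfF, hfF⟩
  obtain ⟨x, hx⟩ := hcen f hfE (F.ofMat_comm t)
  have σ : K →+* ℂ := Classical.choice (inferInstance : Nonempty (K →+* ℂ))
  have h0 := hx (F.e σ 0)
  have h1 := hx (F.e σ 1)
  rw [F.rho_e] at h0 h1
  have e0 : f (F.e σ 0) = F.e σ 0 := by
    show F.ofMat t (F.e σ 0) = _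
    rw [F.ofMat_e, Fin.sum_univ_two]
    simp [t]
  have e1 : f (F.e σ 1) = 0 := by
    show F.ofMat t (F.e σ 1) = _
    rw [F.ofMat_e, Fin.sum_univ_two]
    simp [t]
  rw [e0] at h0
  rw [e1] at h1
  have h2 := congrArg (F.co σ 0) h0
  have h3 := congrArg (F.co σ 1) h1
  rw [map_smul, F.co_e, if_pos ⟨rfl, rfl⟩, smul_eq_mul, mul_one] at h2
  rw [map_smul, F.co_e, if_pos ⟨rfl, rfl⟩, smul_eq_mul, mul_one, map_zero] at h3
  rw [← h3] at h2
  exact one_ne_zero h2

/-- there are pure and mixed places -/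
theorem herm_mixed_of (A : AbVar) (hrig : Rigid A) (K : Type) [Field K] [NumberField K]
    [IsCMField K] (ρ : K → A.H1 → A.H1) (C : A.IsHermMult K ρ) (hdeg : finrank ℚ K = A.g) :
    (∃ σ : K →+* ℂ, A.IsPureAt ρ σ) ∧ ∃ σ : K →+* ℂ, ¬ A.IsPureAt ρ σ := by
  obtain ⟨F, hF, hcc⟩ := nonempty_UFh A K ρ C 2 (by rw [hdeg, mul_comm])
  constructor
  · obtain ⟨σ, hσ⟩ := exists_not_pure F hrig (by
      rw [hcc]
      obtain ⟨x, hx⟩ : ∃ x : K, IsCMField.complexConj K x ≠ x := by
        by_contra hcon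
        push Not at hcon
        exact IsCMField.complexConj_ne_one K (AlgEquiv.ext hcon)
      exact ⟨x, hx⟩)
      (fun f hf hc => by
        rw [hcc] at hc
        obtain ⟨x, hx⟩ := C.centralizer f hf (fun x h v => by
          have := hc x h v
          rw [hF, hF] at this
          exact this)
        exact ⟨x, fun v => by rw [hx, hF]⟩)
    exact ⟨σ, (isDefAt_iff F ρ hF σ).mp hσ⟩
  · obtain ⟨σ, hσ⟩ := exists_not_mixed F hrig (fun f hf hc => by
        obtain ⟨x, hx⟩ := C.centralizer f hf (fun x _ v => by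
          have := hc x v
          rw [hF, hF] at this
          exact this)
        exact ⟨x, fun v => by rw [hx, hF]⟩)
    exact ⟨σ, fun h => hσ ((isDefAt_iff F ρ hF σ).mpr h)⟩

end Pool.Agent.Helper7
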