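import Pool.Agent.Helper7.AF.Q31c
import Pool.Agent.Helper7.AF.Mixed
import Pool.Agent.Helper24.PT.PMain
import Pool.Agent.Helper28.AF.SpanC
import Pool.Agent.Helper8.TPrime

/-!
A threefold and an elliptic curve with the same imaginary quadratic field of endomorphisms: if some
non-zero Weil class is a Grothendieck class, then every Grothendieck class is the sum of a divisorial
class and of Weil classes.
-/

namespace Pool.Agent.Helper7

open Module NumberField LieAlgebra Pool.Agent.GPC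

set_option linter.unusedSectionVars false

section endo

variable {I : Type} [DecidableEq I] (A : I → AbVar) (n : I → ℕ)

lemma slotL_self (i : I) (m : Fin (n i)) (u : (A i).H1) :
    (slotL n (κ := fun i => Fin (A i).g ⊕ Fin (A i).g) i m u) i m = u :=
  prL_slotL n (κ := fun i => Fin (A i).g ⊕ Fin (A i).g) i m u

lemma slotL_cases (i : I) (m : Fin (n i)) (u : (A i).H1) (Q : ∀ j, (A j).H1 → Prop)
    (h0 : ∀ j, Q j 0) (hu : Q i u) (j : I) (m' : Fin (n j)) :
    Q j ((slotL n (κ := fun i => Fin (A i).g ⊕ Fin (A i).g) i m u) j m') := by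
  by_cases hj : j = i
  · subst hj
    by_cases hm : m' = m
    · subst hm; rw [slotL_self]; exact hu
    · have h1 : (slotL n (κ := fun i => Fin (A i).g ⊕ Fin (A i).g) j m u) j m' = 0 :=
        prL_slotL_ne n (κ := fun i => Fin (A i).g ⊕ Fin (A i).g) j m m' hm u
      rw [h1]; exact h0 j
  · have h1 : (slotL n (κ := fun i => Fin (A i).g ⊕ Fin (A i).g) i m u) j m' = 0 :=
      prL_slotL_ne' n (κ := fun i => Fin (A i).g ⊕ Fin (A i).g) i j m m' hj u
    rw [h1]; exact h0 j

lemma isBetti_zero' (A : AbVar) : A.IsBetti 0 := by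
  rw [← mem_pData_Q]; exact Submodule.zero_mem _

lemma isDeRham_zero' (A : AbVar) : A.IsDeRham 0 := fun _ => isAlgebraic_zero

/-- an endomorphism of one copy of a factor -/
lemma isEndo_slot (i : I) (m : Fin (n i)) (g : (A i).H1 → (A i).H1) (hg : (A i).IsEnd g) :
    IsEndo A n (fun v => slotL n (κ := fun i => Fin (A i).g ⊕ Fin (A i).g) i m (g (v i m))) where
  linear := ⟨fun u v => by
      show slotL n (κ := fun i => Fin (A i).g ⊕ Fin (A i).g) i m (g (u i m + v i m)) = _
      rw [hg.linear.map_add, map_add], fun c u => by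
      show slotL n (κ := fun i => Fin (A i).g ⊕ Fin (A i).g) i m (g (c • u i m)) = _
      rw [hg.linear.map_smul, map_smul]⟩
  betti v hv := slotL_cases A n i m _ (fun j u => (A j).IsBetti u) (fun j => isBetti_zero' _)
    (hg.betti _ (hv i m))
  deRham v hv := slotL_cases A n i m _ (fun j u => (A j).IsDeRham u) (fun j => isDeRham_zero' _)
    (hg.deRham _ (hv i m))
  hodge v hv := slotL_cases A n i m _ (fun j u => (A j).IsFil u) (fun _ _ => rfl)
    (hg.hodge _ (hv i m))

lemma isEnd_id (A : AbVar) : A.IsEnd (fun v => v) :=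
  ⟨⟨fun _ _ => rfl, fun _ _ => rfl⟩, fun _ h => h, fun _ h => h, fun _ h => h⟩

/-- a central endomorphism is diagonal, and commutes with the endomorphisms of the factors -/
lemma central_slot (J : H1 A n → H1 A n) (hJ : IsEndo A n J)
    (hc : ∀ f, IsEndo A n f → ∀ v, J (f v) = f (J v)) (i : I) (m : Fin (n i)) :
    ∃ f : Module.End ℂ (A i).H1, (A i).IsEnd f ∧ (∀ u, J (slotL n i m u) = slotL n i m (f u)) ∧
      ∀ g, (A i).IsEnd g → ∀ u, f (g u) = g (f u) := by
  have hlin : IsLinearMap ℂ (fun u : (A i).H1 =>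
      (J (slotL n (κ := fun i => Fin (A i).g ⊕ Fin (A i).g) i m u)) i m) :=
    ⟨fun u v => by rw [map_add, hJ.linear.map_add]; rfl,
      fun c u => by rw [map_smul, hJ.linear.map_smul]; rfl⟩
  have key : ∀ g, (A i).IsEnd g → ∀ u : (A i).H1,
      J (slotL n (κ := fun i => Fin (A i).g ⊕ Fin (A i).g) i m (g u)) =
      slotL n (κ := fun i => Fin (A i).g ⊕ Fin (A i).g) i m
        (g ((J (slotL n (κ := fun i => Fin (A i).g ⊕ Fin (A i).g) i m u)) i m)) := by
    intro g hg u
    have h1 := hc _ (isEndo_slot A n i m g hg)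
      (slotL n (κ := fun i => Fin (A i).g ⊕ Fin (A i).g) i m u)
    rw [slotL_self] at h1
    exact h1
  refine ⟨IsLinearMap.mk' _ hlin, ⟨hlin, fun v hv => ?_, fun v hv => ?_, fun v hv => ?_⟩,
    fun u => key _ (isEnd_id (A i)) u, fun g hg u => ?_⟩
  · exact hJ.betti _ (slotL_cases A n i m v (fun j u => (A j).IsBetti u)
      (fun j => isBetti_zero' _) hv) i m
  · exact hJ.deRham _ (slotL_cases A n i m v (fun j u => (A j).IsDeRham u)
      (fun j => isDeRham_zero' _) hv) i m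
  · exact hJ.hodge _ (slotL_cases A n i m v (fun j u => (A j).IsFil u) (fun _ _ => rfl) hv) i m
  · have h1 := congrArg (fun v : H1 A n => v i m) (key g hg u)
    simp only [slotL_self] at h1
    exact h1

end endo

lemma conj_of_sq {z : ℂ} {d : ℚ} (hd : 0 < d) (h : z ^ 2 = -(d : ℂ)) :
    starRingEnd ℂ z = -z := by
  have h1 := congrArg Complex.re h
  have h2 := congrArg Complex.im h
  rw [pow_two, Complex.mul_re, Complex.neg_re, Complex.ratCast_re] at h1
  rw [pow_two, Complex.mul_im, Complex.neg_im, Complex.ratCast_im, neg_zero] at h2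
  have hd' : (0 : ℝ) < d := by exact_mod_cast hd
  have h3 : z.im ≠ 0 := by
    intro h0
    rw [h0] at h1
    nlinarith [sq_nonneg z.re]
  have h4 : z.re = 0 := by
    have h5 : z.im * z.re = 0 := by linarith
    exact (mul_eq_zero.mp h5).resolve_left h3
  apply Complex.ext
  · rw [Complex.conj_re, Complex.neg_re, h4, neg_zero]
  · rw [Complex.conj_im, Complex.neg_im]

end Pool.Agent.Helper7

namespace Pool.Agent.GPC

open Module NumberField LieAlgebra Pool.Agent.Helper7

section product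

variable {I : Type} [Fintype I] (A : I → AbVar) (n : I → ℕ)

/-- threefold and elliptic curve with the same imaginary quadratic field -/
theorem quad_three_one (p e : I) (hpe : p ≠ e) (hI : ∀ j, j = p ∨ j = e) (hnp : n p = 1)
    (hne : n e = 1) (hp : (A p).g = 3) (he : (A e).g = 1) (K : Type) [Field K] [NumberField K]
    [NumberField.IsCMField K] (hK : finrank ℚ K = 2) (ρ : K → (A p).H1 → (A p).H1)
    (Cp : (A p).IsHermMult K ρ) (ρ' : K → (A e).H1 → (A e).H1) (Ce : (A e).IsHermMult K ρ')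
    (hw : ∃ w : Form A n (2 * 2), w ≠ 0 ∧ IsWeilClass A n 2 w ∧ IsGrothendieck A n 2 w) (k : ℕ)
    (α : Form A n (2 * k)) (hα : IsGrothendieck A n k α) : IsDivisorialWeil A n k α := by
  classical
  obtain ⟨w, hw0, ⟨⟨-, hdim⟩, -, d, J, hJ, hbal⟩, hw1, hw2⟩ := hw
  obtain ⟨hα1, hα2⟩ := id hα
  obtain ⟨hd, hJE, hJJ, -, hcent⟩ := id hJ
  have hcen : ∀ f, IsEndo A n f → ∀ v, J (f v) = f (J v) := by
    rcases hcent with h | ⟨i, hi, -⟩
    · exact h
    · exact absurd ((hi p).trans (hi e).symm) hpe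
  -- the structures
  obtain ⟨r, hr⟩ : ∃ r : I → ℕ, r = fun i => if i = p then 3 else 1 := ⟨_, rfl⟩
  have hrp : r p = 3 := by rw [hr]; exact if_pos rfl
  have hre : r e = 1 := by rw [hr]; exact if_neg (Ne.symm hpe)
  have hF : ∀ i, Nonempty (UF (pData (A i)) K (r i)) := by
    intro i
    rcases hI i with rfl | rfl
    · obtain ⟨F, -, -⟩ := nonempty_UFh (A i) K ρ Cp 3 (by rw [hK, hp])
      rw [hrp]; exact ⟨F⟩
    · obtain ⟨F, -, -⟩ := nonempty_UFh (A i) K ρ' Ce 1 (by rw [hK, he])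
      rw [hre]; exact ⟨F⟩
  have F : ∀ i, UF (pData (A i)) K (r i) := fun i => (hF i).some
  obtain ⟨fp, hfp1, hfp2, hfp3⟩ := central_slot A n J hJE hcen p (ix1 n hnp)
  obtain ⟨fe, hfe1, hfe2, hfe3⟩ := central_slot A n J hJE hcen e (ix1 n hne)
  obtain ⟨x, hx⟩ := (F p).hcen fp (isDRB_of_isEnd _ _ hfp1)
    (fun x v => hfp3 _ (isEnd_of_isDRB _ _ ((F p).hρ x)) v)
  obtain ⟨y, hy⟩ := (F e).hcen fe (isDRB_of_isEnd _ _ hfe1)
    (fun x v => hfe3 _ (isEnd_of_isDRB _ _ ((F e).hρ x)) v)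
  obtain ⟨Jl, hJl⟩ : ∃ Jl : Module.End ℂ (H1 A n), ∀ v, Jl v = J v :=
    ⟨IsLinearMap.mk' _ hJE.linear, fun _ => rfl⟩
  have hJp : ∀ u, Jl (slotL n p (ix1 n hnp) u) = slotL n p (ix1 n hnp) ((F p).ρ x u) := by
    intro u; rw [hJl, hfp2, hx]
  have hJe : ∀ u, Jl (slotL n e (ix1 n hne) u) = slotL n e (ix1 n hne) ((F e).ρ y u) := by
    intro u; rw [hJl, hfe2, hy]
  have sqz : ∀ (i : I) (hi : n i = 1) (hr0 : 0 < r i) (t : K)
      (h : ∀ u, Jl (slotL n i (ix1 n hi) u) = slotL n i (ix1 n hi) ((F i).ρ t u))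
      (ν : K →+* ℂ), (ν t) ^ 2 = -(d : ℂ) := by
    intro i hi hr0 t h ν
    have h1 := hJJ (slotL n i (ix1 n hi) ((F i).e ν ⟨0, hr0⟩))
    rw [← hJl, ← hJl, h, h, (F i).rho_e, map_smul, (F i).rho_e, smul_smul, map_smul,
      ← pow_two] at h1
    have h2 := congrArg (fun v : H1 A n => v i (ix1 n hi)) h1
    simp only [Pi.smul_apply] at h2
    have h3 : (slotL n (κ := fun i => Fin (A i).g ⊕ Fin (A i).g) i (ix1 n hi)
        ((F i).e ν ⟨0, hr0⟩)) i (ix1 n hi) = (F i).e ν ⟨0, hr0⟩ := slotL_self A n i _ _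
    rw [h3, ← sub_eq_zero, ← sub_smul, smul_eq_zero] at h2
    exact sub_eq_zero.mp (h2.resolve_right (Pool.Agent.Helper24.e_ne (F i) ν ⟨0, hr0⟩))
  obtain ⟨σ⟩ : Nonempty (K →+* ℂ) := inferInstance
  obtain ⟨z, hz⟩ : ∃ z, z = σ x := ⟨_, rfl⟩
  have hzd : z ^ 2 = -(d : ℂ) := by
    rw [hz]; exact sqz p hnp (by omega) x hJp σ
  have hzc := conj_of_sq hd hzd
  have hd0 : (d : ℂ) ≠ 0 := by exact_mod_cast hd.ne'
  have hz0 : z ≠ 0 := by
    rintro h0
    rw [h0] at hzd
    apply hd0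
    have := congrArg Neg.neg hzd
    simpa using this.symm
  obtain ⟨τ, hτy⟩ : ∃ τ : K →+* ℂ, τ y = z := by
    have h1 : (σ y) ^ 2 = -(d : ℂ) := sqz e hne (by omega) y hJe σ
    have h2 : (σ y - z) * (σ y + z) = 0 := by
      linear_combination h1 - hzd
    rcases mul_eq_zero.mp h2 with h3 | h3
    · exact ⟨σ, sub_eq_zero.mp h3⟩
    · refine ⟨ComplexEmbedding.conjugate σ, ?_⟩
      rw [ComplexEmbedding.conjugate_coe_eq, eq_neg_of_add_eq_zero_left h3, map_neg, hzc, neg_neg]
  have hne' : ∀ ν : K →+* ℂ, ComplexEmbedding.conjugate ν ≠ ν := fun ν hν =>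
    IsTotallyComplex.complexEmbedding_not_isReal ν (ComplexEmbedding.isReal_iff.mpr hν)
  have hϖ := Complex.two_pi_I_ne_zero
  have hQB : ∀ v : HW (fun i => Fin (A i).g ⊕ Fin (A i).g) n,
      IsRatP n (fun i => pData (A i)) v → IsBetti A n v := fun v hv i m =>
    (mem_pData_Q _ _).mp (hv i m)
  have h0 := q31_core (κ := fun i => Fin (A i).g ⊕ Fin (A i).g) n (fun i => pData (A i)) F hI hnp
    hne hpe hrp hre Jl hz0 x y hJp hJe σ τ (fun σ' => Pool.Agent.Helper24.emb_two hK σ σ')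
    (fun τ' => Pool.Agent.Helper24.emb_two hK τ τ') (hne' σ) (hne' τ) hz.symm
    (by rw [ComplexEmbedding.conjugate_coe_eq, ← hz, hzc]) hτy
    (by rw [ComplexEmbedding.conjugate_coe_eq, hτy, hzc])
    (fun u => by rw [hJl, hJl, hJJ, hzd]) d hd hzd
    (fun u hu i m => by
      rw [mem_pData_Q, hJl]
      exact hJE.betti u (hQB u hu) i m)
    w (fun v r s => by rw [hJl, hJl]; exact hbal v r s) hw0 hϖ
    (fun v hv => hw2 v (fun r => hQB _ (hv r))) hw1
    (by
      rintro v hv hv0 ⟨c, u, hu, hvu⟩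
      rw [pData_Q] at hv
      obtain ⟨N, l, hN, hl, hNl⟩ := betti_eq_period (A e) v hv
      have hNC : (N : ℂ) ≠ 0 := Nat.cast_ne_zero.mpr hN
      refine (A e).periods_not_proportional l hl ?_ ⟨N * c, u, hu, ?_⟩
      · rintro rfl
        apply hv0
        have h1 : (A e).period 0 = 0 := map_zero (periodHom (A e))
        rw [h1, smul_eq_zero] at hNl
        exact hNl.resolve_left hNC
      · rw [← hNl, hvu, smul_smul])
    α (fun v hv => hα2 v (fun r => hQB _ (hv r))) hα1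
  refine Pool.Agent.Helper28.isDivisorialWeil_of_span A n k α hα ?_
  rcases h0 with ⟨hk, h0⟩ | h0
  · have h1 : α = (α - weilPart Jl z α) + weilPart Jl z α := (sub_add_cancel _ _).symm
    rw [h1]
    refine Submodule.add_mem _ (Submodule.span_mono Set.subset_union_left h0)
      (Submodule.subset_span (Or.inr ⟨⟨hk, hdim⟩, d, J, hJ, fun v r s => ?_⟩))
    have h2 := weilPart_bal (J := Jl) hz0 (fun u => by rw [hJl, hJl, hJJ, hzd]) α v r s
    rw [hJl, hJl] at h2
    exact h2
  · exact Submodule.span_mono Set.subset_union_left h0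

end product

end Pool.Agent.GPC
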