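import Pool.Agent.Helper7.AF.Omf
import Pool.Agent.Helper7.AF.Mixed
import Pool.Agent.Helper24.PT.PTypes

/-!
Small cases of the classification: imaginary quadratic fields, elliptic curves.
-/

namespace Pool.Agent.Helper7

open Module NumberField Pool.Agent.GPC Pool.Agent.Helper84

set_option linter.unusedSectionVars false

/-- a CM field is of even degree -/
lemma cm_even (K : Type) [Field K] [NumberField K] [IsCMField K] :
    ∃ e, finrank ℚ K = 2 * e ∧ e ≠ 0 := by
  refine ⟨_, IsTotallyComplex.finrank K, ?_⟩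
  intro h
  have h1 := IsTotallyComplex.finrank K
  rw [h, mul_zero] at h1
  exact (Module.finrank_pos (R := ℚ) (M := K)).ne' h1

section

variable {A : AbVar} {K : Type} [Field K] [NumberField K]

lemma heRho_rat [IsCMField K] {ρ : K → A.H1 → A.H1} (C : A.IsHermMult K ρ) (a : ℚ) (v : A.H1) :
    ρ (a : K) v = (a : ℂ) • v := by
  have h1 := rho_ratsmul (heRho C) a 1
  rw [Algebra.smul_def, mul_one, map_one] at h1
  have h2 := congrArg (fun f : Module.End ℂ A.H1 => f v) h1
  have h3 : heRho C (algebraMap ℚ K a) v = (a : ℂ) • v := h2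
  exact h3

/-- the endomorphism algebra in the Hermitian case over an imaginary quadratic field -/
lemma quadEnd_of_herm [IsCMField K] {ρ : K → A.H1 → A.H1} (C : A.IsHermMult K ρ) {x : K} {q : ℚ}
    (hq : q < 0) (hx : x ^ 2 = (q : K)) (hcx : cmConj K x = - x)
    (hgen : ∀ y : K, ∃ a b : ℚ, y = a + b * x) : A.IsQuadEnd (-q) := by
  refine ⟨by linarith, ρ x, C.endo x, fun v => ?_, fun f hf => ?_⟩
  · rw [← C.mul, ← pow_two, hx, heRho_rat C]
    push_cast
    rw [neg_neg]
  · obtain ⟨y, hy⟩ := C.centralizer f hf (fun y hy v => by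
      obtain ⟨a, b, rfl⟩ := hgen y
      have hadd : ∀ z w : K, cmConj K (z + w) = cmConj K z + cmConj K w := fun z w => map_add _ z w
      have hmul : ∀ z w : K, cmConj K (z * w) = cmConj K z * cmConj K w := fun z w => map_mul _ z w
      have hrat : ∀ q : ℚ, cmConj K (q : K) = q := fun q => map_ratCast _ q
      rw [hadd, hmul, hrat, hrat, hcx] at hy
      have h1 : (b : K) * x = 0 := by linear_combination -hy / 2
      rw [h1, add_zero, heRho_rat C, heRho_rat C, hf.linear.map_smul])
    obtain ⟨a, b, rfl⟩ := hgen y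
    refine ⟨a, b, fun v => ?_⟩
    rw [hy, C.add, C.mul, heRho_rat C, heRho_rat C]

/-- multiples of the square root -/
lemma quadEnd_scale {A : AbVar} {q q' r : ℚ} (hq : q < 0) (h : q = r ^ 2 * q')
    (hA : A.IsQuadEnd (-q')) : A.IsQuadEnd (-q) := by
  obtain ⟨h0, J, hJ, hJJ, hall⟩ := hA
  have hr : r ≠ 0 := by
    rintro rfl
    rw [h] at hq
    norm_num at hq
  refine ⟨by linarith, fun v => (r : ℂ) • J v, ⟨?_, ?_, ?_, ?_⟩, fun v => ?_, fun f hf => ?_⟩
  · refine ⟨fun u v => ?_, fun c v => ?_⟩
    · rw [hJ.linear.map_add, smul_add]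
    · rw [hJ.linear.map_smul, smul_comm]
  · intro v hv
    have h1 := hJ.betti v hv
    rw [← mem_pData_Q] at h1 ⊢
    exact (pData A).rat_smul_mem _ _ h1
  · intro v hv j
    rw [Pi.smul_apply, smul_eq_mul]
    exact (isAlgebraic_algebraMap (A := ℂ) r).mul (hJ.deRham v hv j)
  · intro v hv a
    rw [Pi.smul_apply, hJ.hodge v hv a, smul_zero]
  · show (r : ℂ) • J ((r : ℂ) • J v) = _
    rw [hJ.linear.map_smul, hJJ, smul_smul, smul_smul, h]
    congr 1
    push_cast
    ring
  · obtain ⟨a, b, hab⟩ := hall f hf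
    refine ⟨a, b / r, fun v => ?_⟩
    rw [hab, smul_smul]
    congr 2
    push_cast
    have : (r : ℂ) ≠ 0 := by exact_mod_cast hr
    field_simp

/-- rank one: complex multiplication -/
lemma cmType_of_herm [IsCMField K] {ρ : K → A.H1 → A.H1} (C : A.IsHermMult K ρ)
    (h : finrank ℚ K = 2 * A.g) : IsCMType A K :=
  ⟨inferInstance, ⟨{ ρ := ρ
                     one := C.one
                     mul := C.mul
                     add := C.add
                     degree := h
                     endo := C.endo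
                     rosati := C.rosati }⟩⟩

/-- threefolds -/
lemma picardType_of_herm [IsCMField K] {ρ : K → A.H1 → A.H1} (C : A.IsHermMult K ρ)
    (h : finrank ℚ K = 2) (hg : A.g = 3) : IsPicardType A K :=
  ⟨inferInstance, ⟨{ ρ := ρ
                     one := C.one
                     mul := C.mul
                     add := C.add
                     degree := h
                     dim := hg
                     endo := C.endo
                     rosati := C.rosati
                     centralizer := fun f hf hc => C.centralizer f hf (fun x _ v => hc x v) }⟩⟩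

/-- elliptic curves of real type -/
lemma fullRM_of_real (h : IsRealType A K) (hg : A.g = 1) : IsFullRMType A K := by
  obtain ⟨hK, ⟨C⟩⟩ := h
  obtain ⟨F, hF⟩ := nonempty_RF A K C
  have hre : ∀ σ : K →+* ℂ, ComplexEmbedding.conjugate σ = σ := fun σ =>
    ComplexEmbedding.isReal_iff.mp (IsTotallyReal.complexEmbedding_isReal σ)
  have hr1 : F.r ≠ 1 := by
    intro hr
    have σ : K →+* ℂ := Classical.choice (inferInstance : Nonempty (K →+* ℂ))
    have j0 : Fin F.r := ⟨0, by omega⟩
    have hj : ∀ j : Fin F.r, j = j0 := fun j => by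
      ext; have := j.2; have := j0.2; omega
    have h0 : F.e σ j0 = 0 := by
      apply (pData A).hψnd
      intro v
      rw [F.hsum v, map_sum]
      refine Finset.sum_eq_zero fun τ _ => ?_
      rw [map_sum]
      refine Finset.sum_eq_zero fun j _ => ?_
      rw [map_smul, smul_eq_mul, hj j]
      by_cases hτ : τ = σ
      · subst hτ
        have h1 := (pData A).hψalt (F.e τ j0) (F.e τ j0)
        have h2 : (pData A).ψ (F.e τ j0) (F.e τ j0) = 0 := by linear_combination h1 / 2
        rw [h2, mul_zero]
      · have h2 : (pData A).ψ (F.e σ j0) (F.e τ j0) = 0 := by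
          by_contra hne
          apply hτ
          ext x
          have h1 := F.hros x (F.e σ j0) (F.e τ j0)
          rw [F.rho_e, F.rho_e, map_smul, map_smul, LinearMap.smul_apply, smul_eq_mul,
            smul_eq_mul] at h1
          exact (mul_right_cancel₀ hne h1).symm
        rw [h2, mul_zero]
    have h1 := F.co_e σ j0 σ j0
    rw [h0, map_zero, if_pos ⟨rfl, rfl⟩] at h1
    exact zero_ne_one h1
  replace hF : finrank ℚ K * F.r = 2 := hF.trans (by rw [hg])
  have hfin : finrank ℚ K = 1 := by
    have h1 : 0 < finrank ℚ K := Module.finrank_pos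
    have h2 : finrank ℚ K ∣ 2 := ⟨F.r, by omega⟩
    have h3 := (Nat.dvd_prime Nat.prime_two).mp h2
    rcases h3 with h3 | h3
    · exact h3
    · exfalso; apply hr1; rw [h3] at hF; omega
  have hall : ∀ x : K, ∃ a : ℚ, x = a := by
    intro x
    obtain ⟨a, ha⟩ := (finrank_eq_one_iff_of_nonzero' (1 : K) one_ne_zero).mp hfin x
    refine ⟨a, ?_⟩
    rw [← ha, Algebra.smul_def, mul_one]; rfl
  have hrat : ∀ (a : ℚ) (v : A.H1), C.ρ (a : K) v = (a : ℂ) • v := by
    intro a v
    have h1 := rho_ratsmul (reRho C) a 1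
    rw [Algebra.smul_def, mul_one, map_one] at h1
    have h2 := congrArg (fun f : Module.End ℂ A.H1 => f v) h1
    have h3 : reRho C (algebraMap ℚ K a) v = C.ρ (a : K) v := rfl
    have h4 : reRho C (algebraMap ℚ K a) v = (a : ℂ) • v := h2
    rw [← h3, h4]
  refine ⟨hK, ⟨{ ρ := C.ρ
                 one := C.one
                 mul := C.mul
                 add := C.add
                 degree := by rw [hfin, hg]
                 endo := C.endo
                 rosati := C.rosati
                 centralizer := C.centralizer }, fun f hf => ?_⟩⟩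
  exact C.centralizer f hf (fun x v => by
    obtain ⟨a, rfl⟩ := hall x
    rw [hrat, hrat, hf.linear.map_smul])

/-- change of the field -/
lemma herm_transport {K' : Type} [Field K'] [NumberField K'] [IsCMField K] [IsCMField K']
    {ρ : K → A.H1 → A.H1} (C : A.IsHermMult K ρ) {x : K} {q : ℚ}
    (hx : x ^ 2 = (q : K)) (hcx : cmConj K x = - x)
    (hgen : ∀ y : K, ∃ a b : ℚ, y = a + b * x) {x' : K'} {q' : ℚ} (hq' : q' < 0)
    (hx' : x' ^ 2 = (q' : K')) (hcx' : cmConj K' x' = - x')
    (hgen' : ∀ y : K', ∃ a b : ℚ, y = a + b * x') {r : ℚ} (hr : q' = r ^ 2 * q) :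
    ∃ ρ' : K' → A.H1 → A.H1, A.IsHermMult K' ρ' := by
  have hr0 : r ≠ 0 := by
    rintro rfl
    rw [hr] at hq'
    norm_num at hq'
  have hx0 : x' ≠ 0 := by
    rintro rfl
    rw [zero_pow two_ne_zero] at hx'
    have : q' = 0 := by exact_mod_cast hx'.symm
    exact hq'.ne this
  have huniq : ∀ a b a' b' : ℚ, (a : K') + b * x' = a' + b' * x' → a = a' ∧ b = b' := by
    intro a b a' b' h
    have hb : b = b' := by
      by_contra hne
      have h1 : (b' - b : K') ≠ 0 := by
        intro h2
        apply hne
        have h3 : (b : K') = b' := by linear_combination -h2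
        exact_mod_cast h3
      have h2 : x' = ((a - a') / (b' - b) : ℚ) := by
        push_cast
        field_simp
        linear_combination -h
      rw [h2] at hx'
      have h3 : ((a - a') / (b' - b)) ^ 2 = q' := by exact_mod_cast hx'
      have := sq_nonneg ((a - a') / (b' - b))
      linarith
    refine ⟨?_, hb⟩
    rw [hb] at h
    exact_mod_cast add_right_cancel h
  choose a b hab using hgen'
  have ha1 : ∀ s t : ℚ, a ((s : K') + t * x') = s ∧ b ((s : K') + t * x') = t := by
    intro s t
    have := huniq _ _ _ _ (hab ((s : K') + t * x'))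
    exact ⟨this.1.symm, this.2.symm⟩
  have hadd : ∀ y z, a (y + z) = a y + a z ∧ b (y + z) = b y + b z := by
    intro y z
    have h1 : y + z = ((a y + a z : ℚ) : K') + ((b y + b z : ℚ) : K') * x' := by
      conv_lhs => rw [hab y, hab z]
      push_cast; ring
    have h2 := ha1 (a y + a z) (b y + b z)
    rw [← h1] at h2
    exact h2
  have hmul : ∀ y z, a (y * z) = a y * a z + q' * (b y * b z) ∧
      b (y * z) = a y * b z + b y * a z := by
    intro y z
    have h1 : y * z = ((a y * a z + q' * (b y * b z) : ℚ) : K') +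
        ((a y * b z + b y * a z : ℚ) : K') * x' := by
      conv_lhs => rw [hab y, hab z]
      push_cast
      rw [← hx']
      ring
    have h2 := ha1 (a y * a z + q' * (b y * b z)) (a y * b z + b y * a z)
    rw [← h1] at h2
    exact h2
  have hconj : ∀ y, a (cmConj K' y) = a y ∧ b (cmConj K' y) = - b y := by
    intro y
    have hadd : ∀ z w : K', cmConj K' (z + w) = cmConj K' z + cmConj K' w := fun z w => map_add _ z w
    have hmul : ∀ z w : K', cmConj K' (z * w) = cmConj K' z * cmConj K' w := fun z w => map_mul _ z w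
    have hrat : ∀ q : ℚ, cmConj K' (q : K') = q := fun q => map_ratCast _ q
    have h1 : cmConj K' y = ((a y : ℚ) : K') + ((- b y : ℚ) : K') * x' := by
      conv_lhs => rw [hab y]
      rw [hadd, hmul, hrat, hrat, hcx']
      push_cast; ring
    have h2 := ha1 (a y) (- b y)
    rw [← h1] at h2
    exact h2
  let φ : K' → K := fun y => (a y : K) + (b y * r : ℚ) * x
  have hφ1 : φ 1 = 1 := by
    have h2 := ha1 1 0
    have h3 : ((1 : ℚ) : K') + ((0 : ℚ) : K') * x' = 1 := by push_cast; ring
    rw [h3] at h2
    simp only [φ, h2.1, h2.2]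
    push_cast; ring
  have hφa : ∀ y z, φ (y + z) = φ y + φ z := by
    intro y z
    simp only [φ, (hadd y z).1, (hadd y z).2]
    push_cast; ring
  have hφm : ∀ y z, φ (y * z) = φ y * φ z := by
    intro y z
    simp only [φ, (hmul y z).1, (hmul y z).2, hr]
    push_cast
    rw [← hx]
    ring
  have hφc : ∀ y, φ (cmConj K' y) = cmConj K (φ y) := by
    intro y
    have hadd : ∀ z w : K, cmConj K (z + w) = cmConj K z + cmConj K w := fun z w => map_add _ z w
    have hmul : ∀ z w : K, cmConj K (z * w) = cmConj K z * cmConj K w := fun z w => map_mul _ z w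
    have hrat : ∀ q : ℚ, cmConj K (q : K) = q := fun q => map_ratCast _ q
    simp only [φ, (hconj y).1, (hconj y).2]
    rw [hadd, hmul, hrat, hrat, hcx]
    push_cast; ring
  have hφs : ∀ z : K, ∃ y, φ y = z := by
    intro z
    obtain ⟨s, t, rfl⟩ := hgen z
    refine ⟨(s : K') + ((t / r : ℚ) : K') * x', ?_⟩
    simp only [φ, (ha1 s (t / r)).1, (ha1 s (t / r)).2]
    rw [div_mul_cancel₀ _ hr0]
  refine ⟨fun y => ρ (φ y), fun v => by rw [hφ1, C.one], fun y z v => by rw [hφm, C.mul],
    fun y z v => by rw [hφa, C.add], fun y => C.endo _, fun y => by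
      rw [hφc]; exact C.rosati _, fun f hf _ => ?_⟩
  obtain ⟨z, hz⟩ := C.centralizer f hf (fun y hy v => by
      obtain ⟨a, b, rfl⟩ := hgen y
      have hadd : ∀ z w : K, cmConj K (z + w) = cmConj K z + cmConj K w := fun z w => map_add _ z w
      have hmul : ∀ z w : K, cmConj K (z * w) = cmConj K z * cmConj K w := fun z w => map_mul _ z w
      have hrat : ∀ q : ℚ, cmConj K (q : K) = q := fun q => map_ratCast _ q
      rw [hadd, hmul, hrat, hrat, hcx] at hy
      have h1 : (b : K) * x = 0 := by linear_combination -hy / 2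
      rw [h1, add_zero, heRho_rat C, heRho_rat C, hf.linear.map_smul])
  obtain ⟨y, hy⟩ := hφs z
  exact ⟨y, fun v => by rw [hz, hy]⟩

/-- purity at conjugate places -/
lemma defAt_conj (ρ : K →+* Module.End ℂ A.H1) (hρ : ∀ x, A.IsEnd (ρ x)) {σ : K →+* ℂ}
    (h : IsDefAt A ρ σ) : IsDefAt A ρ (ComplexEmbedding.conjugate σ) := by
  have hcc : ComplexEmbedding.conjugate (ComplexEmbedding.conjugate σ) = σ := by
    ext x; simp
  rcases h with h | h
  · right
    intro v hv
    apply fil_inter A hv
    rw [← proj_cB A ρ hρ]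
    exact h _
  · left
    intro v
    obtain ⟨u, u', hu, hu', huu⟩ := exists_hodge A (proj ρ σ (cB (pData A) v))
    have h1 : proj ρ σ (cB (pData A) v) = cB (pData A) (proj ρ (ComplexEmbedding.conjugate σ) u') := by
      have h2 := congrArg (proj ρ σ) huu
      rw [proj_idem, map_add, h u (proj_fil A ρ hρ σ hu), zero_add,
        proj_cB A ρ hρ σ u'] at h2
      exact h2
    rw [proj_cB A ρ hρ] at h1
    have h3 := congrArg (cB (pData A)) h1
    rw [cB_cB, cB_cB] at h3
    rw [h3]
    exact proj_fil A ρ hρ _ hu'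

/-- in rank two over an imaginary quadratic field there are no pure and mixed places together -/
lemma not_mixed_quad [IsCMField K] {ρ : K → A.H1 → A.H1} (C : A.IsHermMult K ρ)
    (h2 : finrank ℚ K = 2) (hg : A.g = 2) (hm : (∃ σ : K →+* ℂ, A.IsPureAt ρ σ) ∧
      ∃ σ : K →+* ℂ, ¬ A.IsPureAt ρ σ) : False := by
  obtain ⟨F, hF, -⟩ := nonempty_UFh A K ρ C 2 (by rw [h2, hg])
  obtain ⟨⟨σ, hσ⟩, τ, hτ⟩ := hm
  obtain ⟨x, q, hq, hx, -, -⟩ := quad_gen K h2
  rw [← isDefAt_iff F ρ hF] at hσ hτ
  obtain ⟨e1, e2, e3, -, -⟩ := emb_quad h2 hq hx σ τ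
  rcases e3 with h | h
  · rw [e1 h] at hτ; exact hτ hσ
  · rw [e2 h] at hτ
    exact hτ (defAt_conj F.ρ (fun x => isEnd_of_isDRB A _ (F.hρ x)) hσ)

end

end Pool.Agent.Helper7
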