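import Pool.Agent.Helper7.AF.Small
import Pool.Agent.Helper7.AF.Q31
import Pool.Agent.Helper11.AF.Rigid
import Pool.Agent.Helper24.AF.HMain2
import Pool.Agent.Helper28.AF.CMFour
import Pool.Agent.Helper64.AF.QuatFour
import Pool.Agent.Helper64.AF.Quad3
import Pool.Agent.Helper71.AF.Cases
import Pool.Agent.Helper71.AF.Ranks
import Pool.Agent.Helper24.PT.PMain
import Pool.Agent.Helper28.GPC.MainLK
import Pool.Agent.Helper8.TPrime

/-!
All products of dimension at most four of simple abelian varieties.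
-/

namespace Pool.Agent.Helper7

open Module NumberField Pool.Agent.GPC

set_option linter.unusedSectionVars false

variable {I : Type} [Fintype I] (A : I → AbVar) (n : I → ℕ)

lemma divWeil_of_div {k : ℕ} {α : Form A n (2 * k)} (h : IsDivisorial A n k α) :
    IsDivisorialWeil A n k α :=
  ⟨0, fun r => r.elim0, fun r => r.elim0, by simpa using h⟩

/-- a threefold with imaginary quadratic endomorphism algebra, and possibly an elliptic curve -/
theorem picard_four' (hg : ∀ i, (A i).g ≠ 0)
    (hA : ∀ i j, i ≠ j → ∀ f, (A i).IsMor (A j) f → ∀ v, f v = 0) (hn : ∀ i, n i ≠ 0)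
    (hd : ∑ i, n i * (A i).g ≤ 4)
    (h31 : ∀ i j d, (A i).g = 3 → (A j).g = 1 → (A i).IsQuadEnd d → (A j).IsQuadEnd d →
      ∃ w : Form A n (2 * 2), w ≠ 0 ∧ IsWeilClass A n 2 w ∧ IsGrothendieck A n 2 w)
    (K : I → Type) [∀ i, Field (K i)] [∀ i, NumberField (K i)]
    (hK : ∀ i, IsRealType (A i) (K i) ∨
      ∃ (_ : IsCMField (K i)) (ρ : K i → (A i).H1 → (A i).H1), (A i).IsHermMult (K i) ρ)
    (p : I) (hp3 : (A p).g = 3) (hp2 : finrank ℚ (K p) = 2) [IsCMField (K p)]
    (ρ : K p → (A p).H1 → (A p).H1) (C : (A p).IsHermMult (K p) ρ) (k : ℕ)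
    (α : Form A n (2 * k)) (hα : IsGrothendieck A n k α) : IsDivisorialWeil A n k α := by
  classical
  have hpos : ∀ i, 0 < n i * (A i).g := fun i =>
    Nat.mul_pos (Nat.pos_of_ne_zero (hn i)) (Nat.pos_of_ne_zero (hg i))
  have hother : ∀ i, i ≠ p → n i * (A i).g ≤ 1 := by
    intro i hi
    have h1 : n i * (A i).g + n p * (A p).g ≤ ∑ i, n i * (A i).g := by
      rw [← Finset.sum_pair (f := fun i => n i * (A i).g) hi]
      exact Finset.sum_le_sum_of_subset (Finset.subset_univ _)
    have h2 : 3 ≤ n p * (A p).g := by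
      rw [hp3]
      have := Nat.pos_of_ne_zero (hn p)
      omega
    omega
  have hng : ∀ i, i ≠ p → n i = 1 ∧ (A i).g = 1 := by
    intro i hi
    have h1 : n i * (A i).g = 1 := le_antisymm (hother i hi) (hpos i)
    exact ⟨Nat.eq_one_of_mul_eq_one_right h1, Nat.eq_one_of_mul_eq_one_left h1⟩
  have hnp : n p = 1 := by
    have h1 : n p * (A p).g ≤ 4 := le_trans
      (Finset.single_le_sum (fun i _ => Nat.zero_le (n i * (A i).g)) (Finset.mem_univ p)) hd
    rw [hp3] at h1
    have := Nat.pos_of_ne_zero (hn p)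
    omega
  -- degrees in the Hermitian case
  have hdeg : ∀ i, ¬ IsRealType (A i) (K i) → i ≠ p → ∃ (_ : IsCMField (K i))
      (ρ : K i → (A i).H1 → (A i).H1), (A i).IsHermMult (K i) ρ ∧ finrank ℚ (K i) = 2 := by
    intro i hi hip
    obtain ⟨h1, ρ', C'⟩ := (hK i).resolve_left hi
    refine ⟨h1, ρ', C', ?_⟩
    obtain ⟨r, hr⟩ := herm_rank (A i) (K i) ρ' C'
    obtain ⟨e, he, he0⟩ := cm_even (K i)
    rw [(hng i hip).2, he] at hr
    have h3 : e * r = 1 := by nlinarith
    have := Nat.eq_one_of_mul_eq_one_right h3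
    omega
  let s : I → Prop := fun i => i = p ∨ ¬ IsRealType (A i) (K i)
  have hsx : ∀ i, ∃ (x : K i) (q : ℚ), s i → (q < 0 ∧ x ^ 2 = (q : K i) ∧ finrank ℚ (K i) = 2 ∧
      ∃ (_ : IsCMField (K i)) (ρ : K i → (A i).H1 → (A i).H1), (A i).IsHermMult (K i) ρ ∧
        cmConj (K i) x = - x ∧ ∀ y : K i, ∃ a b : ℚ, y = a + b * x) := by
    intro i
    by_cases hi : s i
    · by_cases hip : i = p
      · subst hip
        obtain ⟨x, q, h1, h2, h3, h4⟩ := quad_gen (K i) hp2
        exact ⟨x, q, fun _ => ⟨h1, h2, hp2, inferInstance, ρ, C, h3, h4⟩⟩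
      · obtain ⟨h1, ρ', C', h5⟩ := hdeg i (hi.resolve_left hip) hip
        obtain ⟨x, q, h1, h2, h3, h4⟩ := quad_gen (K i) h5
        exact ⟨x, q, fun _ => ⟨h1, h2, h5, inferInstance, ρ', C', h3, h4⟩⟩
    · exact ⟨0, 0, fun h => absurd h hi⟩
  choose x q hxq using hsx
  have hthree : ∀ i j, i ≠ j → i ≠ p → j ≠ p → False := by
    intro i j hij hip hjp
    have h1 : n i * (A i).g + (n j * (A j).g + n p * (A p).g) ≤ ∑ i, n i * (A i).g := by
      rw [← Finset.sum_pair (f := fun i => n i * (A i).g) hjp, ← Finset.sum_insert (s := {j, p})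
        (a := i) (f := fun i => n i * (A i).g) (by
          rw [Finset.mem_insert, Finset.mem_singleton, not_or]; exact ⟨hij, hip⟩)]
      exact Finset.sum_le_sum_of_subset (Finset.subset_univ _)
    have h2 := hpos i
    have h3 := hpos j
    rw [hnp, hp3] at h1
    omega
  by_cases hcase : ∃ i, i ≠ p ∧ s i ∧ ∃ r : ℚ, q p = r ^ 2 * q i
  · obtain ⟨i, hip, hsi, r, hr⟩ := hcase
    obtain ⟨hq1, hx1, -, cm1, ρ1, C1, hc1, hg1⟩ := hxq p (Or.inl rfl)
    obtain ⟨hq2, hx2, -, cm2, ρ2, C2, hc2, hg2⟩ := hxq i hsi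
    obtain ⟨ρ', C'⟩ := herm_transport C2 hx2 hc2 hg2 hq1 hx1 hc1 hg1 hr
    have hw := h31 p i (-q p) hp3 (hng i hip).2 (quadEnd_of_herm C1 hq1 hx1 hc1 hg1)
      (quadEnd_scale hq1 hr (quadEnd_of_herm C2 hq2 hx2 hc2 hg2))
    exact quad_three_one A n p i (Ne.symm hip) (fun j => by
      by_contra hcon
      rw [not_or] at hcon
      exact hthree j i hcon.2 hcon.1 hip) hnp (hng i hip).1 hp3 (hng i hip).2 (K p) hp2 ρ1 C1 ρ' C'
      hw k α hα
  have hOMF : OddMultiplicityFree K := by
    refine omf_quad s (fun i hi σ => ?_) x q (fun i hi => (hxq i hi).2.2.1)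
      (fun i hi => (hxq i hi).1) (fun i hi => (hxq i hi).2.1) (fun i j hi hj hij r hr => ?_)
    · have h1 : IsRealType (A i) (K i) := by
        by_contra h
        exact hi (Or.inr h)
      have := h1.1
      exact ComplexEmbedding.isReal_iff.mp (IsTotallyReal.complexEmbedding_isReal σ)
    · by_cases hip : i = p
      · subst hip
        exact hcase ⟨j, fun h => hij h.symm, hj, r, hr⟩
      · by_cases hjp : j = p
        · subst hjp
          have hr0 : r ≠ 0 := by
            rintro rfl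
            have := (hxq i hi).1
            rw [hr] at this
            norm_num at this
          have hr' : q j = (r⁻¹) ^ 2 * q i := by
            rw [hr]; field_simp
          exact hcase ⟨i, hip, hi, r⁻¹, hr'⟩
        · exact hthree i j hij hip hjp
  have h1 := (Helper24.main_P A n K (fun i l hl hl0 => (A i).periods_not_proportional l hl hl0) p
    (Finset.univ.filter fun i => i ≠ p ∧ IsRealType (A i) (K i))
    (Finset.univ.filter fun i => i ≠ p ∧ ¬ IsRealType (A i) (K i))
    (fun i => by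
      simp only [Finset.mem_filter, Finset.mem_univ, true_and]
      tauto)
    (picardType_of_herm C hp2 hp3) hnp
    (fun i hi => by
      simp only [Finset.mem_filter, Finset.mem_univ, true_and] at hi
      exact fullRM_of_real hi.2 (hng i hi.1).2)
    (fun i hi => by
      simp only [Finset.mem_filter, Finset.mem_univ, true_and] at hi
      exact (hng i hi.1).1)
    (fun i _ j _ hij => hA i j hij)
    (fun i hi => by
      simp only [Finset.mem_filter, Finset.mem_univ, true_and] at hi
      obtain ⟨h1, ρ', C', h5⟩ := hdeg i hi.2 hi.1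
      exact cmType_of_herm C' (by rw [h5, (hng i hi.1).2]))
    hOMF k α).mp hα
  exact divWeil_of_div A n h1

/-- products of simple abelian varieties of total dimension at most four -/
theorem all_four (hg : ∀ i, (A i).g ≠ 0) (hs : ∀ i, (A i).IsSimple)
    (hA : ∀ i j, i ≠ j → ∀ f, (A i).IsMor (A j) f → ∀ v, f v = 0) (hn : ∀ i, n i ≠ 0)
    (hd : ∑ i, n i * (A i).g ≤ 4)
    (h4 : ∀ i d, (A i).g = 4 → (A i).IsQuadEnd d →
      ∃ w : Form A n (2 * 2), w ≠ 0 ∧ IsWeilClass A n 2 w ∧ IsGrothendieck A n 2 w)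
    (h31 : ∀ i j d, (A i).g = 3 → (A j).g = 1 → (A i).IsQuadEnd d → (A j).IsQuadEnd d →
      ∃ w : Form A n (2 * 2), w ≠ 0 ∧ IsWeilClass A n 2 w ∧ IsGrothendieck A n 2 w)
    (k : ℕ) (α : Form A n (2 * k)) (hα : IsGrothendieck A n k α) :
    IsDivisorialWeil A n k α := by
  classical
  have hpos : ∀ i, 0 < n i * (A i).g := fun i =>
    Nat.mul_pos (Nat.pos_of_ne_zero (hn i)) (Nat.pos_of_ne_zero (hg i))
  have hle : ∀ i, n i * (A i).g ≤ 4 := fun i => le_trans
    (Finset.single_le_sum (fun i _ => Nat.zero_le (n i * (A i).g)) (Finset.mem_univ i)) hd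
  have hg4 : ∀ i, (A i).g ≤ 4 := fun i => by
    have h1 := hle i
    have h2 : (A i).g ≤ n i * (A i).g := Nat.le_mul_of_pos_left _ (Nat.pos_of_ne_zero (hn i))
    omega
  have only : ∀ i, (A i).g = 4 → (∀ j, j = i) ∧ n i = 1 := by
    intro i hi
    have h1 := hle i
    rw [hi] at h1
    have h2 := Nat.pos_of_ne_zero (hn i)
    have h3 : n i = 1 := by omega
    refine ⟨fun j => ?_, h3⟩
    by_contra hj
    have h4 : n j * (A j).g + n i * (A i).g ≤ ∑ i, n i * (A i).g := by
      rw [← Finset.sum_pair (f := fun i => n i * (A i).g) hj]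
      exact Finset.sum_le_sum_of_subset (Finset.subset_univ _)
    rw [h3, hi] at h4
    have := hpos j
    omega
  choose K iF iN hK using fun i => simple_cases (A i) (hs i)
  by_cases hq : ∃ i, ∃ (_ : IsCMField (K i)) (ρ : K i → (A i).H1 → (A i).H1)
      (j : (A i).H1 → (A i).H1) (b : K i), (A i).IsQuatMult (K i) ρ j b
  · obtain ⟨i, h1, ρ, j, b, C⟩ := hq
    obtain ⟨m, hm, hm1⟩ := quat_rank (A i) (K i) ρ j b C
    obtain ⟨e, he, he0⟩ := cm_even (K i)
    rw [he] at hm
    have h5 := hg4 i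
    have h6 := hg i
    have hm0 : m ≠ 0 := by
      rintro rfl
      rw [mul_zero] at hm
      exact h6 hm.symm
    have hm2 : 2 ≤ m := by omega
    have he1 : 1 ≤ e := Nat.pos_of_ne_zero he0
    have h7 : 2 * e * m ≤ 4 := by omega
    have h8 : e = 1 := by nlinarith
    have h9 : m = 2 := by
      rw [h8] at h7
      omega
    have hgi : (A i).g = 4 := by rw [← hm, h8, h9]
    exact quat_four A n i (only i hgi).1 (only i hgi).2 (K i) ρ j b C (by rw [he, h8]) hgi k α hα
  have hK' : ∀ i, IsRealType (A i) (K i) ∨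
      ∃ (_ : IsCMField (K i)) (ρ : K i → (A i).H1 → (A i).H1), (A i).IsHermMult (K i) ρ := by
    intro i
    rcases hK i with h | h | h
    · exact Or.inl h
    · exact Or.inr h
    · exact absurd ⟨i, h⟩ hq
  by_cases hh : ∃ i, ∃ (_ : IsCMField (K i)) (ρ : K i → (A i).H1 → (A i).H1),
      (A i).IsHermMult (K i) ρ ∧ finrank ℚ (K i) ≠ 2 * (A i).g
  · obtain ⟨i, h1, ρ, C, hne⟩ := hh
    obtain ⟨r, hr⟩ := herm_rank (A i) (K i) ρ C
    obtain ⟨e, he, he0⟩ := cm_even (K i)
    rw [he] at hr hne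
    have hr' : e * r = (A i).g := by
      have : 2 * (e * r) = 2 * (A i).g := by rw [← hr]; ring
      omega
    have h5 := hg4 i
    have h6 := hg i
    have hr0 : r ≠ 0 := by
      rintro rfl
      rw [mul_zero] at hr'
      exact h6 hr'.symm
    have hr1 : r ≠ 1 := by
      rintro rfl
      rw [mul_one] at hr'
      rw [hr'] at hne
      exact hne rfl
    have he1 : 1 ≤ e := Nat.pos_of_ne_zero he0
    have hr4 : r ≤ 4 := by
      have : r ≤ e * r := Nat.le_mul_of_pos_left _ he1
      omega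
    have he2 : e ≤ 2 := by
      by_contra hcon
      have h7 : 3 ≤ e := by omega
      have h8 : 2 ≤ r := by omega
      have : 3 * 2 ≤ e * r := Nat.mul_le_mul h7 h8
      omega
    have hmixed : r = 2 → (∃ σ : K i →+* ℂ, (A i).IsPureAt ρ σ) ∧
        ∃ σ : K i →+* ℂ, ¬ (A i).IsPureAt ρ σ := by
      rintro rfl
      exact herm_mixed_of (A i) (fun f hl hb hh => deRham_of_hodge (A i) (A i) f hl hb hh)
        (K i) ρ C (by rw [he]; omega)
    interval_cases e
    · rw [one_mul] at hr'
      interval_cases r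
      · omega
      · exact absurd rfl hr1
      · exact absurd (hmixed rfl) (fun h => not_mixed_quad C (by rw [he]) hr'.symm h)
      · exact picard_four' A n hg hA hn hd h31 K hK' i hr'.symm (by rw [he]) ρ C k α hα
      · obtain ⟨x, q, h1, h2, h3, h7⟩ := quad_gen (K i) (by rw [he])
        exact quad_four A n i (only i hr'.symm).1 (only i hr'.symm).2 (K i) ρ C (by rw [he])
          hr'.symm (h4 i _ hr'.symm (quadEnd_of_herm C h1 h2 h3 h7)) k α hα
    · have h7 : r = 2 := by omega
      subst h7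
      obtain ⟨hp, hm⟩ := hmixed rfl
      exact Pool.Agent.Helper24.herm_four A n i (only i hr'.symm).1 (only i hr'.symm).2 (K i) ρ C (by rw [he])
        hr'.symm hp hm k α hα
  -- real type and complex multiplication
  have hCM : ∀ i, ¬ IsRealType (A i) (K i) → IsCMType (A i) (K i) := by
    intro i hi
    obtain ⟨h1, ρ, C⟩ := (hK' i).resolve_left hi
    refine cmType_of_herm C ?_
    by_contra h
    exact hh ⟨i, h1, ρ, C, h⟩
  by_cases hall : (∀ i, ¬ IsRealType (A i) (K i)) ∧ ∑ i, n i * (A i).g = 4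
  · exact Pool.Agent.Helper28.AF.cm_four A n K (fun i => hCM i (hall.1 i)) hs hA hn hall.2 k α hα
  refine divWeil_of_div A n ((Pool.Agent.Helper28.GPC.main_LK A n K
    (fun i l hl hl0 => (A i).periods_not_proportional l hl hl0)
    (Finset.univ.filter fun i => IsRealType (A i) (K i))
    (Finset.univ.filter fun i => ¬ IsRealType (A i) (K i)) (fun i => by
      simp only [Finset.mem_filter, Finset.mem_univ, true_and]
      tauto) (fun i hi => (Finset.mem_filter.mp hi).2)
      (fun i hi => hCM i (Finset.mem_filter.mp hi).2)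
      (le_trans (Finset.sum_le_sum_of_subset (Finset.subset_univ _)) hd) k (Or.inr (Or.inl ?_))
      α).mp hα)
  refine ⟨fun i _ => hs i, fun i _ j _ hij => hA i j hij,
    le_trans (Finset.sum_le_sum_of_subset (Finset.subset_univ _)) hd, fun h0 => ?_⟩
  exfalso
  apply hall
  have hsum : ∑ i, n i * (A i).g = 4 := by
    refine le_antisymm hd ?_
    rw [← h0]
    exact Finset.sum_le_sum_of_subset (Finset.subset_univ _)
  refine ⟨fun i hi => ?_, hsum⟩
  have h1 := Finset.sum_filter_add_sum_filter_not Finset.univ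
    (fun i => IsRealType (A i) (K i)) (fun i => n i * (A i).g)
  have h2 : n i * (A i).g ≤ ∑ i ∈ Finset.univ.filter (fun i => IsRealType (A i) (K i)),
      n i * (A i).g := Finset.single_le_sum (f := fun i => n i * (A i).g)
        (fun i _ => Nat.zero_le _) (Finset.mem_filter.mpr ⟨Finset.mem_univ i, hi⟩)
  have := hpos i
  omega

end Pool.Agent.Helper7
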