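import Pool.Agent.Helper7.AF.Defs
import Pool.Agent.Helper84.AutC

/-!
Odd multiplicity freeness for fields of degree at most two.
-/

namespace Pool.Agent.Helper7

open Module NumberField Pool.Agent.GPC Pool.Agent.Helper84

set_option linter.unusedSectionVars false

/-- a CM field of degree two is generated by a square root of a negative rational number -/
lemma quad_gen (K : Type) [Field K] [NumberField K] [IsCMField K] (h2 : finrank ℚ K = 2) :
    ∃ (x : K) (q : ℚ), q < 0 ∧ x ^ 2 = (q : K) ∧ cmConj K x = - x ∧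
      ∀ y : K, ∃ a b : ℚ, y = a + b * x := by
  obtain ⟨y, hy⟩ : ∃ x : K, IsCMField.complexConj K x ≠ x := by
    by_contra hcon
    push Not at hcon
    exact IsCMField.complexConj_ne_one K (AlgEquiv.ext hcon)
  have hcc : ∀ z : K, cmConj K (cmConj K z) = z := fun z =>
    IsCMField.complexConj_apply_apply K z
  have hadd : ∀ z w : K, cmConj K (z + w) = cmConj K z + cmConj K w := fun z w => map_add _ z w
  have hsub : ∀ z w : K, cmConj K (z - w) = cmConj K z - cmConj K w := fun z w => map_sub _ z w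
  have hmul : ∀ z w : K, cmConj K (z * w) = cmConj K z * cmConj K w := fun z w => map_mul _ z w
  have hrat : ∀ q : ℚ, cmConj K (q : K) = q := fun q => map_ratCast _ q
  set x : K := y - cmConj K y with hxdef
  have hx0 : x ≠ 0 := fun h => hy (sub_eq_zero.mp h).symm
  have hcx : cmConj K x = - x := by
    rw [hxdef, hsub, hcc]; ring
  have hli : LinearIndependent ℚ ![(1 : K), x] := by
    rw [LinearIndependent.pair_iff]
    intro s t hst
    have h1 : (s : K) + (t : K) * x = 0 := by simpa [Algebra.smul_def] using hst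
    have h3 := congrArg (cmConj K) h1
    rw [hadd, hmul, hrat, hrat, hcx] at h3
    have h4 : cmConj K (0 : K) = 0 := map_zero _
    rw [h4] at h3
    have h5 : (s : K) = 0 := by linear_combination (h1 + h3) / 2
    have h6 : (t : K) * x = 0 := by linear_combination (h1 - h3) / 2
    exact ⟨by exact_mod_cast h5, by
      have := (mul_eq_zero.mp h6).resolve_right hx0; exact_mod_cast this⟩
  have hspan : Submodule.span ℚ (Set.range ![(1 : K), x]) = ⊤ :=
    hli.span_eq_top_of_card_eq_finrank (by rw [h2, Fintype.card_fin])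
  have hgen : ∀ y : K, ∃ a b : ℚ, y = a + b * x := by
    intro y
    have hy : y ∈ Submodule.span ℚ (Set.range ![(1 : K), x]) := by rw [hspan]; trivial
    rw [Submodule.mem_span_range_iff_exists_fun] at hy
    obtain ⟨c, hc⟩ := hy
    refine ⟨c 0, c 1, ?_⟩
    rw [← hc, Fin.sum_univ_two]
    simp [Algebra.smul_def]
  obtain ⟨a, b, hab⟩ := hgen (x ^ 2)
  have h3 := congrArg (cmConj K) hab
  have h4 : cmConj K (x ^ 2) = x ^ 2 := by
    rw [sq, hmul, hcx]; ring
  rw [h4, hadd, hmul, hrat, hrat, hcx, hab] at h3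
  have h5 : (b : K) * x = 0 := by linear_combination h3 / 2
  have h6 : x ^ 2 = (a : K) := by rw [hab, h5, add_zero]
  have σ : K →+* ℂ := Classical.choice (inferInstance : Nonempty (K →+* ℂ))
  refine ⟨x, a, ?_, h6, hcx, hgen⟩
  have h7 : starRingEnd ℂ (σ x) = - σ x := by
    have h8 := IsCMField.complexEmbedding_complexConj K σ x
    have h9 : σ (cmConj K x) = starRingEnd ℂ (σ x) := h8
    rw [← h9, hcx, map_neg]
  have hre : (σ x).re = 0 := by
    have := congrArg Complex.re h7
    simp at this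
    linarith
  have him : (σ x).im ≠ 0 := by
    intro h
    apply hx0
    apply σ.injective
    rw [map_zero]
    exact Complex.ext hre h
  have h10 : (σ x) ^ 2 = (a : ℂ) := by rw [← map_pow, h6, map_ratCast]
  have h11 := congrArg Complex.re h10
  rw [sq, Complex.mul_re, hre] at h11
  have h12 : ((a : ℂ)).re = (a : ℝ) := by simp
  rw [h12] at h11
  have h13 : (a : ℝ) < 0 := by
    rw [← h11]
    have := mul_self_pos.mpr him
    linarith
  exact_mod_cast h13

/-- a field with an element `x` with `x^2` rational negative, of degree two: the embeddings are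
determined by the value at `x` -/
lemma emb_quad {K : Type} [Field K] [NumberField K] (h2 : finrank ℚ K = 2) {x : K} {q : ℚ}
    (hq : q < 0) (hx : x ^ 2 = (q : K)) (σ τ : K →+* ℂ) :
    (τ x = σ x → τ = σ) ∧ (τ x = - σ x → τ = ComplexEmbedding.conjugate σ) ∧
      (τ x = σ x ∨ τ x = - σ x) ∧ σ x ≠ 0 ∧ ComplexEmbedding.conjugate σ x = - σ x := by
  have hsq : ∀ ρ : K →+* ℂ, ρ x ^ 2 = (q : ℂ) := by
    intro ρ
    rw [← map_pow, hx, map_ratCast]
  have hne : ∀ ρ : K →+* ℂ, ρ x ≠ 0 := by
    intro ρ h0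
    have h1 := hsq ρ
    rw [h0, zero_pow two_ne_zero] at h1
    have h3 : q = 0 := by exact_mod_cast h1.symm
    exact hq.ne h3
  have hcc : ComplexEmbedding.conjugate σ x = - σ x := by
    have h1 : (σ x) ^ 2 = (q : ℂ) := hsq σ
    rw [ComplexEmbedding.conjugate_coe_eq]
    have hre : (σ x).re = 0 := by
      have e1 := congrArg Complex.re h1
      have e2 := congrArg Complex.im h1
      rw [sq, Complex.mul_re] at e1
      rw [sq, Complex.mul_im] at e2
      have e3 : ((q : ℂ)).re = (q : ℝ) := by simp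
      have e4 : ((q : ℂ)).im = 0 := by simp
      rw [e3] at e1
      rw [e4] at e2
      have e5 : (σ x).re * (σ x).im = 0 := by linarith
      rcases mul_eq_zero.mp e5 with h | h
      · exact h
      · exfalso
        rw [h] at e1
        have e6 : (q : ℝ) < 0 := by exact_mod_cast hq
        nlinarith [mul_self_nonneg (σ x).re]
    apply Complex.ext
    · simp [hre]
    · simp
  have hor : τ x = σ x ∨ τ x = - σ x := by
    have h1 : (τ x - σ x) * (τ x + σ x) = 0 := by
      have := hsq τ
      have := hsq σ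
      linear_combination (hsq τ) - (hsq σ)
    rcases mul_eq_zero.mp h1 with h | h
    · left; linear_combination h
    · right; linear_combination h
  -- generation
  have hgen : ∀ y : K, ∃ a b : ℚ, y = a + b * x := by
    have hx0 : x ≠ 0 := by
      intro h; apply hne σ; rw [h, map_zero]
    have hli : LinearIndependent ℚ ![(1 : K), x] := by
      rw [LinearIndependent.pair_iff]
      intro s t hst
      have h1 : (s : ℂ) + (t : ℂ) * σ x = 0 := by
        have := congrArg σ hst
        simpa [Algebra.smul_def] using this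
      have h2' : (s : ℂ) + (t : ℂ) * ComplexEmbedding.conjugate σ x = 0 := by
        have := congrArg (ComplexEmbedding.conjugate σ) hst
        simpa [Algebra.smul_def] using this
      rw [hcc] at h2'
      have h3 : (s : ℂ) = 0 := by linear_combination (h1 + h2') / 2
      have h4 : (t : ℂ) * σ x = 0 := by linear_combination (h1 - h2') / 2
      exact ⟨by exact_mod_cast h3,
        by have := (mul_eq_zero.mp h4).resolve_right (hne σ); exact_mod_cast this⟩
    have hspan : Submodule.span ℚ (Set.range ![(1 : K), x]) = ⊤ :=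
      hli.span_eq_top_of_card_eq_finrank (by rw [h2, Fintype.card_fin])
    intro y
    have hy : y ∈ Submodule.span ℚ (Set.range ![(1 : K), x]) := by rw [hspan]; trivial
    rw [Submodule.mem_span_range_iff_exists_fun] at hy
    obtain ⟨c, hc⟩ := hy
    refine ⟨c 0, c 1, ?_⟩
    rw [← hc, Fin.sum_univ_two]
    simp [Algebra.smul_def]
  have hext : ∀ ρ ρ' : K →+* ℂ, ρ x = ρ' x → ρ = ρ' := by
    intro ρ ρ' h
    ext y
    obtain ⟨a, b, rfl⟩ := hgen y
    rw [map_add, map_add, map_mul, map_mul, h, map_ratCast, map_ratCast, map_ratCast, map_ratCast]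
  exact ⟨hext τ σ, fun h => hext τ _ (by rw [h, hcc]), hor, hne σ, hcc⟩

lemma isAlg_of_sq {z : ℂ} {q : ℚ} (h : z ^ 2 = (q : ℂ)) : IsAlgebraic ℚ z := by
  refine IsAlgebraic.of_pow two_pos ?_
  rw [h]
  exact isAlgebraic_algebraMap (A := ℂ) q

section omf

variable {I : Type} {K : I → Type} [∀ i, Field (K i)] [∀ i, NumberField (K i)]

/-- an automorphism which fixes one imaginary quadratic field and not the other -/
lemma exists_flip {K K' : Type} [Field K] [NumberField K] [Field K'] [NumberField K']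
    {x : K} {q : ℚ} (hq : q < 0) (hx : x ^ 2 = (q : K)) (h2 : finrank ℚ K = 2)
    {x' : K'} {q' : ℚ} (hq' : q' < 0) (hx' : x' ^ 2 = (q' : K')) (h2' : finrank ℚ K' = 2)
    (hne : ∀ r : ℚ, q ≠ r ^ 2 * q') :
    ∃ g : ℂ ≃+* ℂ, (∀ σ : K →+* ℂ, (g : ℂ →+* ℂ).comp σ = σ) ∧
      ∀ σ : K' →+* ℂ, (g : ℂ →+* ℂ).comp σ = ComplexEmbedding.conjugate σ := by
  have σ : K →+* ℂ := Classical.choice (inferInstance : Nonempty (K →+* ℂ))
  have σ' : K' →+* ℂ := Classical.choice (inferInstance : Nonempty (K' →+* ℂ))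
  have hs : σ x ^ 2 = (q : ℂ) := by rw [← map_pow, hx, map_ratCast]
  have hs' : σ' x' ^ 2 = (q' : ℂ) := by rw [← map_pow, hx', map_ratCast]
  have h0 := (emb_quad h2 hq hx σ σ).2.2.2.1
  have h0' := (emb_quad h2' hq' hx' σ' σ').2.2.2.1
  -- the sign of an automorphism
  have key : ∀ g : ℂ ≃+* ℂ, (g (σ x) = σ x → ∀ τ : K →+* ℂ, (g : ℂ →+* ℂ).comp τ = τ) := by
    intro g hg τ
    have h1 := (emb_quad h2 hq hx σ τ).2.2.1
    refine (emb_quad h2 hq hx τ ((g : ℂ →+* ℂ).comp τ)).1 ?_
    show g (τ x) = τ x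
    rcases h1 with h | h
    · rw [h, hg]
    · rw [h, map_neg, hg]
  have key' : ∀ g : ℂ ≃+* ℂ, (g (σ' x') = - σ' x' →
      ∀ τ : K' →+* ℂ, (g : ℂ →+* ℂ).comp τ = ComplexEmbedding.conjugate τ) := by
    intro g hg τ
    have h1 := (emb_quad h2' hq' hx' σ' τ).2.2.1
    refine (emb_quad h2' hq' hx' τ ((g : ℂ →+* ℂ).comp τ)).2.1 ?_
    show g (τ x') = - τ x'
    rcases h1 with h | h
    · rw [h, hg]
    · rw [h, map_neg, hg]
  have hor : ∀ g : ℂ ≃+* ℂ, g (σ x) = σ x ∨ g (σ x) = - σ x := fun g =>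
    (emb_quad h2 hq hx σ ((g : ℂ →+* ℂ).comp σ)).2.2.1
  have hor' : ∀ g : ℂ ≃+* ℂ, g (σ' x') = σ' x' ∨ g (σ' x') = - σ' x' := fun g =>
    (emb_quad h2' hq' hx' σ' ((g : ℂ →+* ℂ).comp σ')).2.2.1
  by_cases hall : ∀ g : ℂ ≃+* ℂ, g (σ x * σ' x') = σ x * σ' x'
  · exfalso
    obtain ⟨r, hr⟩ := rational_of_fixed (σ x * σ' x') (by
      apply IsAlgebraic.mul
      · exact isAlg_of_sq hs
      · exact isAlg_of_sq hs') hall
    apply hne (r / q')
    have h1 : (q : ℂ) * q' = (r : ℂ) ^ 2 := by
      rw [← hs, ← hs', ← mul_pow, hr]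
    have h3 : q * q' = r ^ 2 := by exact_mod_cast h1
    have h4 : q' ≠ 0 := hq'.ne
    field_simp
    linear_combination h3
  · push Not at hall
    obtain ⟨g, hg⟩ := hall
    rw [map_mul] at hg
    rcases hor g with h1 | h1 <;> rcases hor' g with h3 | h3
    · exact absurd (by rw [h1, h3]) hg
    · exact ⟨g, key g h1, key' g h3⟩
    · refine ⟨g.trans (starRingAut (R := ℂ)), key _ ?_, key' _ ?_⟩
      · show starRingEnd ℂ (g (σ x)) = σ x
        rw [h1, map_neg]
        have := (emb_quad h2 hq hx σ σ).2.2.2.2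
        rw [ComplexEmbedding.conjugate_coe_eq] at this
        rw [this, neg_neg]
      · show starRingEnd ℂ (g (σ' x')) = - σ' x'
        rw [h3]
        have := (emb_quad h2' hq' hx' σ' σ').2.2.2.2
        rw [ComplexEmbedding.conjugate_coe_eq] at this
        exact this
    · exact absurd (by rw [h1, h3]; ring) hg

/-- fields which are totally real, or imaginary quadratic and pairwise not isomorphic -/
theorem omf_quad (s : I → Prop) (hr : ∀ i, ¬ s i → ∀ σ : K i →+* ℂ,
      ComplexEmbedding.conjugate σ = σ)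
    (x : ∀ i, K i) (q : I → ℚ) (h2 : ∀ i, s i → finrank ℚ (K i) = 2) (hq : ∀ i, s i → q i < 0)
    (hx : ∀ i, s i → x i ^ 2 = (q i : K i))
    (hne : ∀ i j, s i → s j → i ≠ j → ∀ r : ℚ, q i ≠ r ^ 2 * q j) [Finite I] :
    OddMultiplicityFree K := by
  classical
  have := Fintype.ofFinite I
  intro U hU i hu w hw hw0
  obtain ⟨u, huU, σ, hσ⟩ := hu
  have hsi : s i := by
    by_contra h
    have h1 := (hU u huU).1 i σ
    rw [hr i h σ] at h1
    apply hσ
    linarith
  -- kill the other components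
  have hkill : ∀ J : Finset I, i ∉ J → ∃ v ∈ U, v ⟨i, σ⟩ ≠ 0 ∧ ∀ j ∈ J, ∀ τ, v ⟨j, τ⟩ = 0 := by
    intro J
    induction J using Finset.induction_on with
    | empty => exact fun _ => ⟨u, huU, hσ, fun j hj => absurd hj (Finset.notMem_empty j)⟩
    | insert j J hj ih =>
      intro hi
      rw [Finset.mem_insert, not_or] at hi
      obtain ⟨v, hv, hvi, hvJ⟩ := ih hi.2
      by_cases hsj : s j
      · obtain ⟨g, hg1, hg2⟩ := exists_flip (hq i hsi) (hx i hsi) (h2 i hsi) (hq j hsj) (hx j hsj)
          (h2 j hsj) (hne i j hsi hsj hi.1)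
        have htr : ∀ t : Emb K, GPC.translate K g v t = v ⟨t.1, (g : ℂ →+* ℂ).comp t.2⟩ :=
          fun t => rfl
        refine ⟨v + GPC.translate K g v, U.add_mem hv ((hU v hv).2 g), ?_, ?_⟩
        · rw [Pi.add_apply, htr]
          simp only [hg1]
          intro h
          apply hvi
          linarith
        · intro j' hj' τ
          rw [Pi.add_apply, htr]
          rcases Finset.mem_insert.mp hj' with rfl | hj'
          · simp only [hg2]
            rw [(hU v hv).1 j' τ, add_neg_cancel]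
          · simp only
            rw [hvJ j' hj', hvJ j' hj', add_zero]
      · refine ⟨v, hv, hvi, fun j' hj' τ => ?_⟩
        rcases Finset.mem_insert.mp hj' with rfl | hj'
        · have h1 := (hU v hv).1 j' τ
          rw [hr j' hsj τ] at h1
          linarith
        · exact hvJ j' hj' τ
  obtain ⟨v, hv, hvi, hvJ⟩ := hkill (Finset.univ.erase i) (Finset.notMem_erase i _)
  have h1 : w = (w ⟨i, σ⟩ / v ⟨i, σ⟩) • v := by
    funext ⟨j, τ⟩
    rw [Pi.smul_apply, smul_eq_mul]
    by_cases hji : j = i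
    · subst hji
      rcases (emb_quad (h2 j hsi) (hq j hsi) (hx j hsi) σ τ).2.2.1 with h | h
      · rw [(emb_quad (h2 j hsi) (hq j hsi) (hx j hsi) σ τ).1 h, div_mul_cancel₀ _ hvi]
      · rw [(emb_quad (h2 j hsi) (hq j hsi) (hx j hsi) σ τ).2.1 h, hw, (hU v hv).1 j σ, mul_neg,
          div_mul_cancel₀ _ hvi]
    · rw [hw0 j τ hji, hvJ j (Finset.mem_erase.mpr ⟨hji, Finset.mem_univ j⟩) τ, mul_zero]
  rw [h1]
  exact U.smul_mem _ hv

end omf

end Pool.Agent.Helper7
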