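import Pool.Agent.Helper24.PT.USlots
import Pool.Agent.Helper8.H.Labels

/-!
The product of two forms: its infinitesimal symmetries; slot functions for a form which is invariant
under the symmetries of another form.
-/

namespace Pool.Agent.Helper7

open Module NumberField LieAlgebra Pool.Agent.Helper24

attribute [local instance 100] LieRing.ofAssociativeRing

open Pool.Agent.GPC (Emb IsOdd IsOddModule translate)
open Pool.Agent.Helper8 (SF SF0 PS symG invF invF_symG SF.toSF0 SF.factor SF.mem_of_factor
  mem_of_PS)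

set_option linter.unusedSectionVars false

section pair

variable {W : Type} [AddCommGroup W] [Module ℂ W] {k l : ℕ}

/-- the slots of the product -/
def pairE (k l : ℕ) : Fin (2 * k) ⊕ Fin (2 * l) ≃ Fin (2 * (k + l)) :=
  finSumFinEquiv.trans (finCongr (by ring))

/-- the product of two forms -/
noncomputable def pairForm (a : MultilinearMap ℂ (fun _ : Fin (2 * k) => W) ℂ)
    (b : MultilinearMap ℂ (fun _ : Fin (2 * l) => W) ℂ) :
    MultilinearMap ℂ (fun _ : Fin (2 * (k + l)) => W) ℂ :=
  ((LinearMap.mul' ℂ ℂ).compMultilinearMap (a.domCoprod b)).domDomCongr (pairE k l)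

lemma pairForm_apply (a : MultilinearMap ℂ (fun _ : Fin (2 * k) => W) ℂ)
    (b : MultilinearMap ℂ (fun _ : Fin (2 * l) => W) ℂ) (v : Fin (2 * (k + l)) → W) :
    pairForm a b v = a (fun i => v (pairE k l (.inl i))) * b (fun i => v (pairE k l (.inr i))) :=
  rfl

lemma actForm_pair (L : Module.End ℂ W) (a : MultilinearMap ℂ (fun _ : Fin (2 * k) => W) ℂ)
    (b : MultilinearMap ℂ (fun _ : Fin (2 * l) => W) ℂ) (v : Fin (2 * (k + l)) → W) :
    actForm L (pairForm a b) v =
      actForm L a (fun i => v (pairE k l (.inl i))) * b (fun i => v (pairE k l (.inr i))) +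
      a (fun i => v (pairE k l (.inl i))) * actForm L b (fun i => v (pairE k l (.inr i))) := by
  classical
  rw [actForm_apply, actForm_apply, actForm_apply,
    ← Fintype.sum_equiv (pairE k l) (fun s => pairForm a b
      (Function.update v (pairE k l s) (L (v (pairE k l s))))) _ (fun _ => rfl),
    Fintype.sum_sum_type, Finset.sum_mul, Finset.mul_sum]
  congr 1
  · refine Finset.sum_congr rfl fun i _ => ?_
    rw [pairForm_apply]
    congr 2
    · funext i'
      by_cases h : i' = i
      · subst h; rw [Function.update_self, Function.update_self]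
      · rw [Function.update_of_ne h, Function.update_of_ne]
        intro h'
        exact h (Sum.inl.inj ((pairE k l).injective h'))
    · funext i'
      rw [Function.update_of_ne]
      intro h'
      exact absurd ((pairE k l).injective h') (by simp)
  · refine Finset.sum_congr rfl fun i _ => ?_
    rw [pairForm_apply]
    congr 2
    · funext i'
      rw [Function.update_of_ne]
      intro h'
      exact absurd ((pairE k l).injective h') (by simp)
    · funext i'
      by_cases h : i' = i
      · subst h; rw [Function.update_self, Function.update_self]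
      · rw [Function.update_of_ne h, Function.update_of_ne]
        intro h'
        exact h (Sum.inr.inj ((pairE k l).injective h'))

lemma pairForm_pair (v : Fin (2 * k) → W)
    (u : Fin (2 * l) → W) : ∃ x : Fin (2 * (k + l)) → W, (fun i => x (pairE k l (.inl i))) = v ∧
      (fun i => x (pairE k l (.inr i))) = u := by
  refine ⟨fun s => Sum.elim v u ((pairE k l).symm s), ?_, ?_⟩
  · funext i; beta_reduce; rw [Equiv.symm_apply_apply]; rfl
  · funext i; beta_reduce; rw [Equiv.symm_apply_apply]; rfl

/-- the two factors of the product are eigenvectors of a symmetry of the product -/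
lemma eigen_of_pair (L : Module.End ℂ W) (a : MultilinearMap ℂ (fun _ : Fin (2 * k) => W) ℂ)
    (b : MultilinearMap ℂ (fun _ : Fin (2 * l) => W) ℂ) (ha : a ≠ 0) (hb : b ≠ 0) (c : ℂ)
    (h : actForm L (pairForm a b) = c • pairForm a b) :
    ∃ c', actForm L a = (c - c') • a ∧ actForm L b = c' • b := by
  obtain ⟨v0, hv0⟩ : ∃ v, a v ≠ 0 := by
    by_contra hcon
    push Not at hcon
    exact ha (MultilinearMap.ext hcon)
  obtain ⟨u0, hu0⟩ : ∃ u, b u ≠ 0 := by
    by_contra hcon
    push Not at hcon
    exact hb (MultilinearMap.ext hcon)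
  have h1 : ∀ v u, actForm L a v * b u + a v * actForm L b u = c * (a v * b u) := by
    intro v u
    obtain ⟨x, h1, h2⟩ := pairForm_pair v u
    have h3 := congrArg (fun g => g x) h
    simp only [_root_.smul_apply, smul_eq_mul] at h3
    rw [actForm_pair, pairForm_apply, h1, h2] at h3
    exact h3
  refine ⟨actForm L b u0 / b u0, ?_, ?_⟩
  · ext v
    rw [_root_.smul_apply, smul_eq_mul]
    have h2 := h1 v u0
    field_simp
    linear_combination h2
  · ext u
    rw [_root_.smul_apply, smul_eq_mul]
    have h2 := h1 v0 u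
    have h3 := h1 v0 u0
    field_simp
    apply mul_left_cancel₀ hv0
    linear_combination b u0 * h2 - b u * h3

end pair

section alt

variable {W : Type} [AddCommGroup W] [Module ℂ W] {ι : Type} [Fintype ι] [DecidableEq ι]

/-- a form which vanishes on vectors (as many as its degree) vanishes on their span -/
lemma alt_span_zero (w : W [⋀^ι]→ₗ[ℂ] ℂ) (E : ι → W) (hE : w E = 0) (v : ι → W)
    (hv : ∀ r, v r ∈ Submodule.span ℂ (Set.range E)) : w v = 0 := by
  have h1 : ∀ r, ∃ c : ι → ℂ, ∑ s, c s • E s = v r := fun r =>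
    (Submodule.mem_span_range_iff_exists_fun ℂ).mp (hv r)
  choose c hc using h1
  have h2 : v = fun r => ∑ s, c r s • E s := funext fun r => (hc r).symm
  have h3 := (w : MultilinearMap ℂ (fun _ : ι => W) ℂ).map_sum (fun r s => c r s • E s)
  have h4 : w v = ∑ g : ι → ι, w (fun r => c r (g r) • E (g r)) := by
    rw [h2]; exact h3
  rw [h4]
  refine Finset.sum_eq_zero fun g _ => ?_
  have h5 := (w : MultilinearMap ℂ (fun _ : ι => W) ℂ).map_smul_univ (fun r => c r (g r))
    (fun r => E (g r))
  have h6 : w (fun r => c r (g r) • E (g r)) = (∏ r, c r (g r)) • w (fun r => E (g r)) := h5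
  rw [h6]
  by_cases hg : Function.Injective g
  · have h7 : w (fun r => E (g r)) = 0 := by
      have h8 := w.map_perm E (Equiv.ofBijective g ((Finite.injective_iff_bijective).mp hg))
      have h9 : w (fun r => E (g r)) = Equiv.Perm.sign
        (Equiv.ofBijective g ((Finite.injective_iff_bijective).mp hg)) • w E := h8
      rw [h9, hE, smul_zero]
    rw [h7, smul_zero]
  · have h7 : w (fun r => E (g r)) = 0 := by
      simp only [Function.Injective] at hg
      push Not at hg
      obtain ⟨x, y, hxy, hne⟩ := hg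
      exact w.map_eq_zero_of_eq _ (by simp only [hxy]) hne
    rw [h7, smul_zero]

/-- the action on the value at vectors whose span is stable is the trace -/
lemma act_trace (w : W [⋀^ι]→ₗ[ℂ] ℂ) (E : ι → W) (L : Module.End ℂ W)
    (c : ι → ι → ℂ) (hL : ∀ t, L (E t) = ∑ s, c s t • E s) :
    actForm L (w : MultilinearMap ℂ (fun _ : ι => W) ℂ) E = (∑ t, c t t) * w E := by
  rw [actForm_apply, Finset.sum_mul]
  refine Finset.sum_congr rfl fun t _ => ?_
  rw [hL, MultilinearMap.map_update_sum, Finset.sum_eq_single t]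
  · rw [MultilinearMap.map_update_smul, Function.update_eq_self]; rfl
  · intro s _ hs
    rw [MultilinearMap.map_update_smul]
    have h1 : (w : MultilinearMap ℂ (fun _ : ι => W) ℂ) (Function.update E t (E s)) = 0 :=
      w.map_update_self E (Ne.symm hs)
    rw [h1, smul_zero]
  · intro h; exact absurd (Finset.mem_univ _) h

/-- the multiplier of an eigenform is the trace -/
lemma eigen_trace {ι' : Type} [Fintype ι'] [DecidableEq ι'] (ε : ι ≃ ι')
    (w : W [⋀^ι]→ₗ[ℂ] ℂ) (E : ι' → W) (L : Module.End ℂ W)
    (c : ι' → ι' → ℂ) (hL : ∀ t, L (E t) = ∑ s, c s t • E s) (d : ℂ)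
    (hd : actForm L (w : MultilinearMap ℂ (fun _ : ι => W) ℂ) = d •
      (w : MultilinearMap ℂ (fun _ : ι => W) ℂ)) (hE : w (fun s => E (ε s)) ≠ 0) :
    d = ∑ t, c t t := by
  have h1 := act_trace w (fun s => E (ε s)) L (fun s t => c (ε s) (ε t)) (fun t => by
    rw [hL, ← Fintype.sum_equiv ε (fun s => c (ε s) (ε t) • E (ε s)) _ (fun _ => rfl)])
  rw [hd, Fintype.sum_equiv ε (fun s => c (ε s) (ε s)) (fun s => c s s) (fun _ => rfl)] at h1
  exact mul_right_cancel₀ hE h1

variable (J : Module.End ℂ W) (z : ℂ)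

/-- the projector to an eigenspace of `J` -/
noncomputable def prJ : Module.End ℂ W := (1 / 2 : ℂ) • (LinearMap.id + z⁻¹ • J)

lemma prJ_apply (u : W) : prJ J z u = (1 / 2 : ℂ) • (u + z⁻¹ • J u) := rfl

variable {J z} (hz : z ≠ 0) (hJJ : ∀ u, J (J u) = z ^ 2 • u)

include hz in
lemma prJ_add (u : W) : prJ J z u + prJ J (-z) u = u := by
  rw [prJ_apply, prJ_apply, inv_neg]
  module

include hz hJJ in
lemma J_prJ (u : W) : J (prJ J z u) = z • prJ J z u := by
  have e : J (prJ J z u) = (1 / 2 : ℂ) • (J u + (z⁻¹ * z ^ 2) • u) := by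
    rw [prJ_apply, map_smul, map_add, map_smul, hJJ, smul_smul]
  have e2 : z • prJ J z u = (1 / 2 : ℂ) • (z • u + (z * z⁻¹) • J u) := by
    rw [prJ_apply]; module
  rw [e, e2, mul_inv_cancel₀ hz, one_smul, show z⁻¹ * z ^ 2 = z by field_simp, add_comm]

include hz in
lemma prJ_of_eigen {u : W} (h : J u = z • u) : prJ J z u = u := by
  rw [prJ_apply, h, smul_smul, inv_mul_cancel₀ hz]
  module

include hz in
lemma prJ_of_eigen' {u : W} (h : J u = -z • u) : prJ J z u = 0 := by
  rw [prJ_apply, h, smul_smul, mul_neg, inv_mul_cancel₀ hz]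
  module

variable (w : W [⋀^ι]→ₗ[ℂ] ℂ)
  (hbal : ∀ v r s, w (Function.update v r (J (v r))) = w (Function.update v s (J (v s))))

include hz hbal in
/-- a balanced form vanishes on vectors from different eigenspaces -/
lemma bal_mixed (v : ι → W) (r s : ι) (hr : J (v r) = z • v r) (hs : J (v s) = -z • v s) :
    w v = 0 := by
  have h1 := hbal v r s
  rw [hr, hs, AlternatingMap.map_update_smul, AlternatingMap.map_update_smul,
    Function.update_eq_self, Function.update_eq_self, smul_eq_mul, smul_eq_mul] at h1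
  have h2 : (2 * z) * w v = 0 := by linear_combination h1
  exact (mul_eq_zero.mp h2).resolve_left (mul_ne_zero two_ne_zero hz)

include hz hJJ hbal in
lemma bal_split [Nonempty ι] (v : ι → W) : w v = w (fun r => prJ J z (v r)) +
    w (fun r => prJ J (-z) (v r)) := by
  have hz' : -z ≠ 0 := neg_ne_zero.mpr hz
  have hJJ' : ∀ u, J (J u) = (-z) ^ 2 • u := fun u => by rw [hJJ, neg_sq]
  have h1 : v = (fun r => prJ J z (v r)) + (fun r => prJ J (-z) (v r)) := by
    funext r
    exact (prJ_add hz (v r)).symm
  have h2 := (w : MultilinearMap ℂ (fun _ : ι => W) ℂ).map_add_univ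
    (fun r => prJ J z (v r)) (fun r => prJ J (-z) (v r))
  rw [← h1] at h2
  have h3 : w v = ∑ s : Finset ι, w (s.piecewise (fun r => prJ J z (v r))
    (fun r => prJ J (-z) (v r))) := h2
  rw [h3, Finset.sum_eq_add (Finset.univ : Finset ι) (∅ : Finset ι)
    Finset.univ_nonempty.ne_empty]
  · rw [Finset.piecewise_univ, Finset.piecewise_empty]
  · rintro s - ⟨hs1, hs2⟩
    obtain ⟨a, ha⟩ := Finset.nonempty_iff_ne_empty.mpr hs2
    obtain ⟨b, hb⟩ : ∃ b, b ∉ s := by
      by_contra hcon
      push Not at hcon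
      exact hs1 (Finset.eq_univ_iff_forall.mpr hcon)
    refine bal_mixed hz w hbal _ a b ?_ ?_
    · rw [Finset.piecewise_eq_of_mem _ _ _ ha]
      exact J_prJ hz hJJ _
    · rw [Finset.piecewise_eq_of_notMem _ _ _ hb]
      exact J_prJ hz' hJJ' _
  · intro h; exact absurd (Finset.mem_univ _) h
  · intro h; exact absurd (Finset.mem_univ _) h

include hz hJJ hbal in
lemma bal_neg [Nonempty ι] (hvan : ∀ v : ι → W, (∀ r, J (v r) = z • v r) → w v = 0)
    (v : ι → W) (r0 : ι) : w (Function.update v r0 (J (v r0))) = -z * w v := by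
  have hz' : -z ≠ 0 := neg_ne_zero.mpr hz
  have hJJ' : ∀ u, J (J u) = (-z) ^ 2 • u := fun u => by rw [hJJ, neg_sq]
  have h1 : ∀ v : ι → W, w v = w (fun r => prJ J (-z) (v r)) := by
    intro v
    rw [bal_split hz hJJ w hbal v, hvan _ (fun r => J_prJ hz hJJ (v r)), zero_add]
  have h2 : (fun r => prJ J (-z) (Function.update v r0 (J (v r0)) r)) =
      Function.update (fun r => prJ J (-z) (v r)) r0 (-z • prJ J (-z) (v r0)) := by
    funext r
    by_cases hr : r = r0
    · subst hr
      rw [Function.update_self, Function.update_self, ← J_prJ hz' hJJ', prJ_apply, prJ_apply,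
        map_smul, map_add, map_smul]
    · rw [Function.update_of_ne hr, Function.update_of_ne hr]
  rw [h1, h2, AlternatingMap.map_update_smul, smul_eq_mul]
  rw [h1 v]
  congr 2
  exact Function.update_eq_self r0 (fun r => prJ J (-z) (v r))

/-- the part of a form given by the two eigenspaces -/
noncomputable def weilPart (J : Module.End ℂ W) (z : ℂ) (w : W [⋀^ι]→ₗ[ℂ] ℂ) :
    W [⋀^ι]→ₗ[ℂ] ℂ := w.compLinearMap (prJ J z) + w.compLinearMap (prJ J (-z))

lemma weilPart_apply (v : ι → W) : weilPart J z w v = w (fun r => prJ J z (v r)) +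
    w (fun r => prJ J (-z) (v r)) := rfl

include hz hJJ in
lemma weilPart_bal (v : ι → W) (r s : ι) :
    weilPart J z w (Function.update v r (J (v r))) =
      weilPart J z w (Function.update v s (J (v s))) := by
  have hz' : -z ≠ 0 := neg_ne_zero.mpr hz
  have hJJ' : ∀ u, J (J u) = (-z) ^ 2 • u := fun u => by rw [hJJ, neg_sq]
  have key : ∀ r, weilPart J z w (Function.update v r (J (v r))) =
      z * w (fun r => prJ J z (v r)) + (-z) * w (fun r => prJ J (-z) (v r)) := by
    intro r0
    have h2 : ∀ z : ℂ, z ≠ 0 → (∀ u, J (J u) = z ^ 2 • u) →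
        (fun r => prJ J z (Function.update v r0 (J (v r0)) r)) =
        Function.update (fun r => prJ J z (v r)) r0 (z • prJ J z (v r0)) := by
      intro z hz hJJ
      funext r
      by_cases hr : r = r0
      · subst hr
        rw [Function.update_self, Function.update_self, ← J_prJ hz hJJ, prJ_apply, prJ_apply,
          map_smul, map_add, map_smul]
      · rw [Function.update_of_ne hr, Function.update_of_ne hr]
    rw [weilPart_apply, h2 z hz hJJ, h2 (-z) hz' hJJ', AlternatingMap.map_update_smul,
      AlternatingMap.map_update_smul, smul_eq_mul, smul_eq_mul]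
    congr 3
    · exact Function.update_eq_self r0 (fun r => prJ J z (v r))
    · exact Function.update_eq_self r0 (fun r => prJ J (-z) (v r))
  rw [key, key]

end alt

section family

variable {I : Type} [Fintype I] [DecidableEq I] (n : I → ℕ)
  {κ : I → Type} [∀ i, Fintype (κ i)] [∀ i, DecidableEq (κ i)] {ϖ : ℂ}
  (P : ∀ i, PData (κ i) ϖ)
  {K : I → Type} [∀ i, Field (K i)] [∀ i, NumberField (K i)] {r : I → ℕ}
  (F : ∀ i, UF (P i) (K i) (r i))
  {k l : ℕ} (M : MultilinearMap ℂ (fun _ : Fin (2 * l) => HW κ n) ℂ)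

/-- the labelled components of an alternating form which is invariant under the symmetries of `M`
are slot functions -/
lemma SF_label' (β : (HW κ n) [⋀^Fin (2 * k)]→ₗ[ℂ] ℂ)
    (hβ : ∀ X, IsInv n P M X → actForm (lift n X.1)
      (β : MultilinearMap ℂ (fun _ : Fin (2 * k) => HW κ n) ℂ) = (k * X.2) •
      (β : MultilinearMap ℂ (fun _ : Fin (2 * k) => HW κ n) ℂ)) (a : Fin (2 * k) → At n K) :
    SF (symG n P M) (Helper24.EE n P F) a
      Finset.univ (fun v => β (fun r => Helper24.EE n P F (a r) (v r))) := by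
  classical
  have hupd : ∀ (v : Fin (2 * k) → HW κ n) r x,
      (fun r' => Helper24.EE n P F (a r') (Function.update v r x r')) =
      Function.update (fun r' => Helper24.EE n P F (a r') (v r')) r
        (Helper24.EE n P F (a r) x) := by
    intro v r x
    funext r'
    by_cases h : r' = r
    · subst h; rw [Function.update_self, Function.update_self]
    · rw [Function.update_of_ne h, Function.update_of_ne h]
  refine ⟨?_, ?_, ?_, ?_, ?_, ?_⟩
  · intro v v' hv
    have : v = v' := funext fun r => hv r (Finset.mem_univ r)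
    rw [this]
  · intro v r _ x y
    rw [hupd, hupd, hupd, map_add, AlternatingMap.map_update_add]
  · intro v r _ c x
    rw [hupd, hupd, map_smul, AlternatingMap.map_update_smul, smul_eq_mul]
  · rintro _ ⟨X, hX, rfl⟩ v
    have h1 := congrArg (fun g => g (fun r => Helper24.EE n P F (a r) (v r))) (hβ X hX)
    simp only [actForm_apply, _root_.smul_apply, smul_eq_mul] at h1
    have h2 : ∀ t, β (fun r' => Helper24.EE n P F (a r')
        (Function.update v t (lift n X.1 (v t)) r')) =
        (β : MultilinearMap ℂ (fun _ : Fin (2 * k) => HW κ n) ℂ)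
          (Function.update (fun r => Helper24.EE n P F (a r) (v r)) t
            (lift n X.1 (Helper24.EE n P F (a t) (v t)))) := by
      intro t
      rw [hupd, Helper24.EE_lift n P F _ hX]
      rfl
    simp only [h2]
    rw [h1, Finset.card_univ, Fintype.card_fin]
    push_cast
    show 2 * ((k : ℂ) * X.2 * β (fun r => Helper24.EE n P F (a r) (v r))) = _
    ring
  · intro r _ v
    rw [hupd, Helper24.EE_EE]
    congr 1
    exact Function.update_eq_self r (fun r' => Helper24.EE n P F (a r') (v r'))
  · intro r _ s _ hne hq v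
    have h1 := β.map_swap (fun r' => Helper24.EE n P F (a r') (v r')) hne
    rw [← h1]
    congr 1
    funext t
    rw [Function.comp_apply, Function.comp_apply]
    congr 2
    by_cases ht : t = r
    · subst ht; rw [Equiv.swap_apply_left, hq]
    · by_cases ht' : t = s
      · subst ht'; rw [Equiv.swap_apply_right, hq]
      · rw [Equiv.swap_apply_of_ne_of_ne ht ht']

/-- a form in the complex span of products of bilinear forms invariant under the symmetries of `M`
is a complex combination of products of pull-backs of polarisations -/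
theorem wedge_of_span2 (hϖ : ϖ ≠ 0)
    (hB : ∀ v : Fin (2 * l) → HW κ n, (∀ r, IsRatP n P (v r)) → ∃ q : ℚ, M v = ϖ ^ l * q)
    (hA : ∀ v : Fin (2 * l) → HW κ n, (∀ r i m j, IsAlgebraic ℚ (v r i m j)) →
      IsAlgebraic ℚ (M v))
    (β : (HW κ n) [⋀^Fin (2 * k)]→ₗ[ℂ] ℂ)
    (h0 : (β : MultilinearMap ℂ (fun _ : Fin (2 * k) => HW κ n) ℂ) ∈ Submodule.span ℂ
      {M' | ∃ (π : Equiv.Perm (Fin (2 * k))) (γ : Fin k → (HW κ n →ₗ[ℂ] HW κ n →ₗ[ℂ] ℂ)),
      (∀ a, γ a ∈ invB n P M) ∧ M' = (prodBilin γ).domDomCongr π}) :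
    β ∈ Submodule.span ℂ {ω | ∃ γ : Fin k → (HW κ n →ₗ[ℂ] HW κ n →ₗ[ℂ] ℂ),
      (∀ a, γ a ∈ GW n P) ∧ ω = wedge γ} := by
  classical
  have hgen : ∀ M' ∈ Submodule.span ℂ
      {M' | ∃ (π : Equiv.Perm (Fin (2 * k))) (γ : Fin k → (HW κ n →ₗ[ℂ] HW κ n →ₗ[ℂ] ℂ)),
      (∀ a, γ a ∈ invB n P M) ∧ M' = (prodBilin γ).domDomCongr π},
      MultilinearMap.alternatization M' ∈ Submodule.span ℂ
        {ω | ∃ γ : Fin k → (HW κ n →ₗ[ℂ] HW κ n →ₗ[ℂ] ℂ),
        (∀ a, γ a ∈ GW n P) ∧ ω = wedge γ} := by
    intro M' hM
    induction hM using Submodule.span_induction with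
    | mem M' hM =>
      obtain ⟨π, γ, hγ, rfl⟩ := hM
      rw [alternatization_domDomCongr]
      have h4 : wedge γ ∈ Submodule.span ℂ
        {ω | ∃ γ : Fin k → (HW κ n →ₗ[ℂ] HW κ n →ₗ[ℂ] ℂ),
        (∀ a, γ a ∈ GW n P) ∧ ω = wedge γ} :=
        wedge_mem_span (GW n P) γ (fun a => inv_mem_GW n P _ hϖ hB hA _ (hγ a))
      rcases Int.units_eq_one_or (Equiv.Perm.sign π) with h | h
      · rw [h, one_smul]; exact h4
      · rw [h, Units.neg_smul, one_smul]; exact Submodule.neg_mem _ h4
    | zero => rw [map_zero]; exact Submodule.zero_mem _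
    | add x y _ _ hx hy => rw [map_add]; exact Submodule.add_mem _ hx hy
    | smul c x _ hx => rw [alternatization_smul]; exact Submodule.smul_mem _ _ hx
  have h2 := hgen _ h0
  rw [AlternatingMap.coe_alternatization, ← Nat.cast_smul_eq_nsmul ℂ] at h2
  have h3 := Submodule.smul_mem _
    (((Nat.factorial (Fintype.card (Fin (2 * k)))) : ℂ)⁻¹) h2
  rw [smul_smul, inv_mul_cancel₀ (Nat.cast_ne_zero.mpr (Nat.factorial_ne_zero _)),
    one_smul] at h3
  exact h3

end family

end Pool.Agent.Helper7
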