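import Pool.Agent.Helper24.PT.URec
import Pool.Agent.Helper7.AF.Pair

/-!
Slot functions for a threefold and an elliptic curve with the same imaginary quadratic field.
-/

namespace Pool.Agent.Helper7

open Module NumberField LieAlgebra Pool.Agent.Helper24

attribute [local instance 100] LieRing.ofAssociativeRing

open Pool.Agent.GPC (Emb IsOdd IsOddModule translate)
open Pool.Agent.Helper8 (SF SF0 PS symG invF invF_symG SF.toSF0 SF.factor SF.mem_of_factor
  mem_of_PS)

set_option linter.unusedSectionVars false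

section family

variable {I : Type} [Fintype I] [DecidableEq I] (n : I → ℕ)
  {κ : I → Type} [∀ i, Fintype (κ i)] [∀ i, DecidableEq (κ i)] {ϖ : ℂ}
  (P : ∀ i, PData (κ i) ϖ)
  {K : I → Type} [∀ i, Field (K i)] [∀ i, NumberField (K i)] {r : I → ℕ}
  (F : ∀ i, UF (P i) (K i) (r i))
  {l : ℕ} (M : MultilinearMap ℂ (fun _ : Fin (2 * l) => HW κ n) ℂ)

section core

variable {R : Type*} [DecidableEq R] {q : R → At n K} {T : Finset R} {Φ : (R → HW κ n) → ℂ}

/-- slots at the two places of the factor of rank three -/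
theorem core_p (hr : ∀ i, 0 < r i) (hk : IsKilling ℂ (Helper24.LL n P F M))
    (hirr : ∀ s, LieModule.IsIrreducible ℂ (Helper24.LL n P F M) (Helper24.Vs n P F M s))
    {p : I} (hrp : r p = 3) (m : Fin (n p)) (σ : K p →+* ℂ)
    (hσ' : ComplexEmbedding.conjugate σ ≠ σ) (hev : Even T.card)
    (h : SF (symG n P M) (Helper24.EE n P F) q T Φ)
    (hlab : ∀ t ∈ T, q t = ⟨p, m, σ⟩ ∨ q t = ⟨p, m, ComplexEmbedding.conjugate σ⟩) :
    Φ ∈ PS (invB n P M) T := by
  classical
  obtain ⟨a, ha⟩ : ∃ a : At n K, a = ⟨p, m, σ⟩ := ⟨_, rfl⟩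
  obtain ⟨a', ha'⟩ : ∃ a' : At n K, a' = ⟨p, m, ComplexEmbedding.conjugate σ⟩ := ⟨_, rfl⟩
  have hne : a ≠ a' := by
    rw [ha, ha']
    intro e
    exact hσ' (congrArg Prod.snd
      (sigma_mk_injective (β := fun i => Fin (n i) × (K i →+* ℂ)) e)).symm
  rw [← ha, ← ha'] at hlab
  obtain ⟨A, hAd⟩ : ∃ A, A = T.filter (fun t => q t = a) := ⟨_, rfl⟩
  obtain ⟨B, hBd⟩ : ∃ B, B = T.filter (fun t => q t = a') := ⟨_, rfl⟩
  have hTAB : T = A ∪ B := by
    ext t
    rw [hAd, hBd, Finset.mem_union, Finset.mem_filter, Finset.mem_filter]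
    constructor
    · intro ht
      rcases hlab t ht with h' | h'
      · exact Or.inl ⟨ht, h'⟩
      · exact Or.inr ⟨ht, h'⟩
    · rintro (h' | h') <;> exact h'.1
  have hdis : Disjoint A B := by
    rw [Finset.disjoint_left, hAd, hBd]
    intro t ht ht'
    exact hne ((Finset.mem_filter.mp ht).2.symm.trans (Finset.mem_filter.mp ht').2)
  have hev' : Even (A.card + B.card) := by
    rw [← Finset.card_union_of_disjoint hdis, ← hTAB]
    exact hev
  have hAq : ∀ t ∈ A, q t = ⟨p, m, σ⟩ := fun t ht => by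
    rw [hAd] at ht
    rw [(Finset.mem_filter.mp ht).2, ha]
  have hBq : ∀ t ∈ B, q t = ⟨p, m, ComplexEmbedding.conjugate σ⟩ := fun t ht => by
    rw [hBd] at ht
    rw [(Finset.mem_filter.mp ht).2, ha']
  rcases le_total B.card A.card with hle | hle
  · rw [hTAB] at h ⊢
    exact core_all n P F M hr hk hirr hrp rfl A B hdis hAq hBq h hle hev'
  · rw [hTAB, Finset.union_comm] at h ⊢
    exact core_all n P F M hr hk hirr hrp
      (Pool.Agent.Helper84.cc_cc σ).symm B A hdis.symm hBq hAq h hle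
      (by rw [add_comm]; exact hev')

end core

/-- the copy of a factor which occurs once -/
def ix1 {i : I} (h : n i = 1) : Fin (n i) := ⟨0, by omega⟩

/-- the atom of a factor which occurs once -/
def at1 {i : I} (h : n i = 1) (σ : K i →+* ℂ) : At n K := ⟨i, ix1 n h, σ⟩

lemma at1_ne {i : I} (h : n i = 1) {σ σ' : K i →+* ℂ} (hs : σ ≠ σ') :
    at1 n h σ ≠ at1 n h σ' := by
  intro e
  exact hs (congrArg Prod.snd
    (sigma_mk_injective (β := fun i => Fin (n i) × (K i →+* ℂ)) e))

lemma at1_ne' {i j : I} (h : n i = 1) (h' : n j = 1) (hij : i ≠ j) (σ : K i →+* ℂ)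
    (σ' : K j →+* ℂ) : at1 n h σ ≠ at1 n h' σ' := fun e => hij (congrArg Sigma.fst e)

variable {p e : I} (hI : ∀ j, j = p ∨ j = e) (hnp : n p = 1) (hne : n e = 1)
  (σ : K p →+* ℂ) (τ : K e →+* ℂ)
  (hσ : ∀ σ', σ' = σ ∨ σ' = ComplexEmbedding.conjugate σ)
  (hτ : ∀ τ', τ' = τ ∨ τ' = ComplexEmbedding.conjugate τ)

include hI hσ hτ in
lemma atoms31 (t : At n K) : t = at1 n hnp σ ∨ t = at1 n hnp (ComplexEmbedding.conjugate σ) ∨
    t = at1 n hne τ ∨ t = at1 n hne (ComplexEmbedding.conjugate τ) := by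
  rcases t with ⟨i, m, ν⟩
  rcases hI i with rfl | rfl
  · have hm : m = ⟨0, by omega⟩ := by
      have h5 := m.2
      exact Fin.ext (by simp only; omega)
    rcases hσ ν with rfl | rfl
    · left; rw [hm]; rfl
    · right; left; rw [hm]; rfl
  · have hm : m = ⟨0, by omega⟩ := by
      have h5 := m.2
      exact Fin.ext (by simp only; omega)
    rcases hτ ν with rfl | rfl
    · right; right; left; rw [hm]; rfl
    · right; right; right; rw [hm]; rfl

variable (hpe : p ≠ e) (hrp : r p = 3) (hre : r e = 1)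
  (hσ' : ComplexEmbedding.conjugate σ ≠ σ) (hτ' : ComplexEmbedding.conjugate τ ≠ τ)

include hI hpe hrp hre hσ hτ hσ' hτ' in
theorem label31 (hr : ∀ i, 0 < r i) (hk : IsKilling ℂ (Helper24.LL n P F M))
    (hirr : ∀ s, LieModule.IsIrreducible ℂ (Helper24.LL n P F M) (Helper24.Vs n P F M s))
    (hrel : ∀ X, IsInv n P M X → 3 * (ch P F ⟨p, σ⟩ X -
      ch P F ⟨p, ComplexEmbedding.conjugate σ⟩ X) + (ch P F ⟨e, τ⟩ X -
      ch P F ⟨e, ComplexEmbedding.conjugate τ⟩ X) = 0)
    (hne0 : ∃ X, IsInv n P M X ∧ ch P F ⟨e, τ⟩ X ≠ ch P F ⟨e, ComplexEmbedding.conjugate τ⟩ X)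
    {k : ℕ} (a : Fin (2 * k) → At n K) (Φ : (Fin (2 * k) → HW κ n) → ℂ)
    (h : SF (symG n P M) (Helper24.EE n P F) a Finset.univ Φ) :
    Φ ∈ PS (invB n P M) Finset.univ ∨ (k = 2 ∧
      ((∀ s, a s = at1 n hnp σ ∨ a s = at1 n hne τ) ∨
      (∀ s, a s = at1 n hnp (ComplexEmbedding.conjugate σ) ∨
        a s = at1 n hne (ComplexEmbedding.conjugate τ)))) := by
  classical
  by_cases hz : ∀ v, Φ v = 0
  · exact Or.inl (PS_of_zero n P M hz)
  push Not at hz
  obtain ⟨v, hv⟩ := hz
  obtain ⟨A, hA⟩ : ∃ A, A = (Finset.univ : Finset (Fin (2 * k))).filter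
    (fun s => a s = at1 n hnp σ) := ⟨_, rfl⟩
  obtain ⟨B, hB⟩ : ∃ B, B = (Finset.univ : Finset (Fin (2 * k))).filter
    (fun s => a s = at1 n hnp (ComplexEmbedding.conjugate σ)) := ⟨_, rfl⟩
  obtain ⟨C, hC⟩ : ∃ C, C = (Finset.univ : Finset (Fin (2 * k))).filter
    (fun s => a s = at1 n hne τ) := ⟨_, rfl⟩
  obtain ⟨D, hD⟩ : ∃ D, D = (Finset.univ : Finset (Fin (2 * k))).filter
    (fun s => a s = at1 n hne (ComplexEmbedding.conjugate τ)) := ⟨_, rfl⟩
  have mA : ∀ s, s ∈ A ↔ a s = at1 n hnp σ := fun s => by rw [hA]; simp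
  have mB : ∀ s, s ∈ B ↔ a s = at1 n hnp (ComplexEmbedding.conjugate σ) := fun s => by
    rw [hB]; simp
  have mC : ∀ s, s ∈ C ↔ a s = at1 n hne τ := fun s => by rw [hC]; simp
  have mD : ∀ s, s ∈ D ↔ a s = at1 n hne (ComplexEmbedding.conjugate τ) := fun s => by
    rw [hD]; simp
  have cases4 := fun s => atoms31 n hI hnp hne σ τ hσ hτ (a s)
  -- at most three slots, at most one slot
  have cA : A.card ≤ 3 := by
    by_contra hc
    exact hv (alt_many n P F h.toSF0 (i := p) (m := ⟨0, by omega⟩) (σ := σ) A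
      (Finset.subset_univ A) (fun t ht => (mA t).mp ht) (by rw [hrp]; omega) v)
  have cB : B.card ≤ 3 := by
    by_contra hc
    exact hv (alt_many n P F h.toSF0 (i := p) (m := ⟨0, by omega⟩)
      (σ := ComplexEmbedding.conjugate σ) B
      (Finset.subset_univ B) (fun t ht => (mB t).mp ht) (by rw [hrp]; omega) v)
  have cC : C.card ≤ 1 := by
    by_contra hc
    exact hv (alt_many n P F h.toSF0 (i := e) (m := ⟨0, by omega⟩) (σ := τ) C
      (Finset.subset_univ C) (fun t ht => (mC t).mp ht) (by rw [hre]; omega) v)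
  have cD : D.card ≤ 1 := by
    by_contra hc
    exact hv (alt_many n P F h.toSF0 (i := e) (m := ⟨0, by omega⟩)
      (σ := ComplexEmbedding.conjugate τ) D
      (Finset.subset_univ D) (fun t ht => (mD t).mp ht) (by rw [hre]; omega) v)
  -- disjointness
  have n1 : at1 n hnp σ ≠ at1 n hnp (ComplexEmbedding.conjugate σ) := at1_ne n hnp (Ne.symm hσ')
  have n2 : at1 n hne τ ≠ at1 n hne (ComplexEmbedding.conjugate τ) := at1_ne n hne (Ne.symm hτ')
  have n3 := fun σ τ => at1_ne' n (K := K) hnp hne hpe σ τ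
  have hU : (Finset.univ : Finset (Fin (2 * k))) = (A ∪ B) ∪ (C ∪ D) := by
    ext s
    simp only [Finset.mem_univ, Finset.mem_union, true_iff, mA, mB, mC, mD]
    rcases cases4 s with h' | h' | h' | h' <;> simp [h']
  have dAB : Disjoint A B := by
    rw [Finset.disjoint_left]
    intro s h1 h2
    exact n1 (((mA s).mp h1).symm.trans ((mB s).mp h2))
  have dCD : Disjoint C D := by
    rw [Finset.disjoint_left]
    intro s h1 h2
    exact n2 (((mC s).mp h1).symm.trans ((mD s).mp h2))
  have dd' : Disjoint (A ∪ B) (C ∪ D) := by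
    rw [Finset.disjoint_left]
    intro s h1 h2
    rw [Finset.mem_union, mA, mB] at h1
    rw [Finset.mem_union, mC, mD] at h2
    rcases h1 with h1 | h1 <;> rcases h2 with h2 | h2 <;> exact n3 _ _ (h1.symm.trans h2)
  have hcard : A.card + B.card + (C.card + D.card) = 2 * k := by
    rw [← Finset.card_union_of_disjoint dAB, ← Finset.card_union_of_disjoint dCD,
      ← Finset.card_union_of_disjoint dd', ← hU, Finset.card_univ, Fintype.card_fin]
  -- the relation
  have hw : ∀ X, IsInv n P M X → ((A.card : ℂ) - B.card) * (ch P F ⟨p, σ⟩ X -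
      ch P F ⟨p, ComplexEmbedding.conjugate σ⟩ X) + ((C.card : ℂ) - D.card) *
      (ch P F ⟨e, τ⟩ X - ch P F ⟨e, ComplexEmbedding.conjugate τ⟩ X) = 0 := by
    intro X hX
    have h1 := Helper24.weight_sum n P F M hk h v hv X hX
    have h2 : ∑ s, ch P F (pl n (a s)) X = A.card * ch P F ⟨p, σ⟩ X +
        B.card * ch P F ⟨p, ComplexEmbedding.conjugate σ⟩ X +
        (C.card * ch P F ⟨e, τ⟩ X + D.card * ch P F ⟨e, ComplexEmbedding.conjugate τ⟩ X) := by
      rw [hU, Finset.sum_union dd', Finset.sum_union dAB, Finset.sum_union dCD]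
      rw [Finset.sum_congr rfl (fun s hs => by rw [(mA s).mp hs]; rfl :
          ∀ s ∈ A, ch P F (pl n (a s)) X = ch P F ⟨p, σ⟩ X),
        Finset.sum_congr rfl (fun s hs => by rw [(mB s).mp hs]; rfl :
          ∀ s ∈ B, ch P F (pl n (a s)) X =
            ch P F ⟨p, ComplexEmbedding.conjugate σ⟩ X),
        Finset.sum_congr rfl (fun s hs => by rw [(mC s).mp hs]; rfl :
          ∀ s ∈ C, ch P F (pl n (a s)) X = ch P F ⟨e, τ⟩ X),
        Finset.sum_congr rfl (fun s hs => by rw [(mD s).mp hs]; rfl :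
          ∀ s ∈ D, ch P F (pl n (a s)) X =
            ch P F ⟨e, ComplexEmbedding.conjugate τ⟩ X)]
      simp only [Finset.sum_const, nsmul_eq_mul]
    have hcc : ((2 * k : ℕ) : ℂ) = A.card + B.card + (C.card + D.card) := by
      exact_mod_cast hcard.symm
    rw [h2, Finset.card_univ, Fintype.card_fin, hcc] at h1
    have h3 : ch P F ⟨p, σ⟩ X + ch P F ⟨p, ComplexEmbedding.conjugate σ⟩ X = X.2 :=
      Helper24.ch_conj n P F M hr ⟨p, σ⟩ X hX
    have h4 : ch P F ⟨e, τ⟩ X + ch P F ⟨e, ComplexEmbedding.conjugate τ⟩ X = X.2 :=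
      Helper24.ch_conj n P F M hr ⟨e, τ⟩ X hX
    linear_combination h1 - (A.card + B.card : ℂ) * h3 - (C.card + D.card : ℂ) * h4
  obtain ⟨X0, hX0, hX1⟩ := hne0
  have key : ((A.card : ℤ) - B.card) = 3 * (C.card - D.card) := by
    have e1 := hw X0 hX0
    have e2 := hrel X0 hX0
    have e3 : ch P F ⟨e, τ⟩ X0 - ch P F ⟨e, ComplexEmbedding.conjugate τ⟩ X0 ≠ 0 :=
      sub_ne_zero.mpr hX1
    have e4 : ((A.card : ℂ) - B.card) = 3 * (C.card - D.card) := by
      apply mul_right_cancel₀ e3
      linear_combination (-3 : ℂ) * e1 + ((A.card : ℂ) - B.card) * e2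
    exact_mod_cast e4
  rcases Nat.le_one_iff_eq_zero_or_eq_one.mp cC with c0 | c1
  · rcases Nat.le_one_iff_eq_zero_or_eq_one.mp cD with d0 | d1
    · -- no slots at the elliptic curve
      left
      refine core_p n P F M hr hk hirr hrp ⟨0, by omega⟩ σ hσ'
        (by rw [Finset.card_univ, Fintype.card_fin]; exact even_two_mul _) h (fun s _ => ?_)
      rw [Finset.card_eq_zero] at c0 d0
      rcases cases4 s with h' | h' | h' | h'
      · exact Or.inl h'
      · exact Or.inr h'
      · exact absurd ((mC s).mpr h') (by rw [c0]; exact Finset.notMem_empty s)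
      · exact absurd ((mD s).mpr h') (by rw [d0]; exact Finset.notMem_empty s)
    · -- Weil type
      right
      have hB3 : B.card = 3 ∧ A.card = 0 := by omega
      refine ⟨by omega, Or.inr fun s => ?_⟩
      have cA0 := Finset.card_eq_zero.mp hB3.2
      have cC0 := Finset.card_eq_zero.mp c0
      rcases cases4 s with h' | h' | h' | h'
      · exact absurd ((mA s).mpr h') (by rw [cA0]; exact Finset.notMem_empty s)
      · exact Or.inl h'
      · exact absurd ((mC s).mpr h') (by rw [cC0]; exact Finset.notMem_empty s)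
      · exact Or.inr h'
  · rcases Nat.le_one_iff_eq_zero_or_eq_one.mp cD with d0 | d1
    · right
      have hB3 : A.card = 3 ∧ B.card = 0 := by omega
      refine ⟨by omega, Or.inl fun s => ?_⟩
      have cB0 := Finset.card_eq_zero.mp hB3.2
      have cD0 := Finset.card_eq_zero.mp d0
      rcases cases4 s with h' | h' | h' | h'
      · exact Or.inl h'
      · exact absurd ((mB s).mpr h') (by rw [cB0]; exact Finset.notMem_empty s)
      · exact Or.inr h'
      · exact absurd ((mD s).mpr h') (by rw [cD0]; exact Finset.notMem_empty s)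
    · -- two slots at the elliptic curve
      left
      obtain ⟨r0, hr0⟩ := Finset.card_eq_one.mp c1
      obtain ⟨s0, hs0⟩ := Finset.card_eq_one.mp d1
      have q1 : a r0 = at1 n hne τ := (mC r0).mp (by rw [hr0]; exact Finset.mem_singleton_self _)
      have q2 : a s0 = at1 n hne (ComplexEmbedding.conjugate τ) :=
        (mD s0).mp (by rw [hs0]; exact Finset.mem_singleton_self _)
      have hrs : r0 ≠ s0 := by
        rintro rfl
        exact n2 (q1.symm.trans q2)
      refine cm_step n P F M h (Finset.mem_univ r0) (Finset.mem_univ s0) hrs hre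
        (m := ⟨0, by omega⟩) (m' := ⟨0, by omega⟩) (σ := τ) q1 q2 (fun Ψ hΨ => ?_)
      refine core_p n P F M hr hk hirr hrp ⟨0, by omega⟩ σ hσ' ?_ hΨ (fun s hs => ?_)
      · rw [Finset.card_sdiff_of_subset (Finset.subset_univ _), Finset.card_pair hrs,
          Finset.card_univ, Fintype.card_fin]
        have : 2 * k - 2 = 2 * (k - 1) := by omega
        rw [this]
        exact even_two_mul _
      · rw [Finset.mem_sdiff, Finset.mem_insert, Finset.mem_singleton, not_or] at hs
        rcases cases4 s with h' | h' | h' | h'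
        · exact Or.inl h'
        · exact Or.inr h'
        · have := (mC s).mpr h'
          rw [hr0, Finset.mem_singleton] at this
          exact absurd this hs.2.1
        · have := (mD s).mpr h'
          rw [hs0, Finset.mem_singleton] at this
          exact absurd this hs.2.2

end family

end Pool.Agent.Helper7
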