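import Pool.Agent.Helper7.AF.Q31a

/-!
A threefold and an elliptic curve with the same imaginary quadratic field: the relation given by a
Weil class, and the complex span.
-/

namespace Pool.Agent.Helper7

open Module NumberField LieAlgebra Pool.Agent.Helper24

attribute [local instance 100] LieRing.ofAssociativeRing

open Pool.Agent.GPC (Emb IsOdd IsOddModule translate)
open Pool.Agent.Helper8 (SF SF0 PS symG invF invF_symG SF.toSF0 SF.factor SF.mem_of_factor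
  mem_of_PS)

set_option linter.unusedSectionVars false

section family

variable {I : Type} [Fintype I] [DecidableEq I] (n : I → ℕ)
  {κ : I → Type} [∀ i, Fintype (κ i)] [∀ i, DecidableEq (κ i)] {ϖ : ℂ}
  (P : ∀ i, PData (κ i) ϖ)
  {K : I → Type} [∀ i, Field (K i)] [∀ i, NumberField (K i)] {r : I → ℕ}
  (F : ∀ i, UF (P i) (K i) (r i))

/-- a rational form on which `J` acts in one slot as a scalar whose square is negative rational -/
lemma rat_zero {ι : Type} [Fintype ι] [DecidableEq ι] (w : (HW κ n) [⋀^ι]→ₗ[ℂ] ℂ) (c : ℂ)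
    (hc : c ≠ 0)
    (hB : ∀ v : ι → HW κ n, (∀ r, IsRatP n P (v r)) → ∃ q : ℚ, w v = c * q)
    (J : Module.End ℂ (HW κ n)) (hJQ : ∀ u, IsRatP n P u → IsRatP n P (J u)) (z : ℂ) (d : ℚ)
    (hd : 0 < d) (hzd : z ^ 2 = -(d : ℂ)) (r0 : ι)
    (hneg : ∀ v, w (Function.update v r0 (J (v r0))) = -z * w v) : w = 0 := by
  refine Basis.ext_alternating (FBP n P) fun v _ => ?_
  obtain ⟨u, hu⟩ : ∃ u : ι → HW κ n, u = fun i => FBP n P (v i) := ⟨_, rfl⟩
  rw [← hu]
  have hur : ∀ r, IsRatP n P (u r) := fun r => by rw [hu]; exact FBP_isRatP n P _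
  obtain ⟨q, hq⟩ := hB u hur
  obtain ⟨q', hq'⟩ := hB (Function.update u r0 (J (u r0))) (fun r => by
    by_cases h : r = r0
    · subst h; rw [Function.update_self]; exact hJQ _ (hur r)
    · rw [Function.update_of_ne h]; exact hur r)
  rw [hneg, hq] at hq'
  have h1 : (q' : ℂ) = -z * q := by
    apply mul_left_cancel₀ hc
    rw [← hq']; ring
  have h2 : ((q' ^ 2 + d * q ^ 2 : ℚ) : ℂ) = 0 := by
    push_cast
    rw [h1]
    linear_combination (q : ℂ) ^ 2 * hzd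
  have h3 : q' ^ 2 + d * q ^ 2 = 0 := by exact_mod_cast h2
  have h4 : q = 0 := by
    by_contra h0
    have h5 : 0 < q ^ 2 := by positivity
    have h6 : 0 < d * q ^ 2 := mul_pos hd h5
    nlinarith [sq_nonneg q']
  rw [hq, h4]
  simp

variable {p e : I} (hI : ∀ j, j = p ∨ j = e) (hnp : n p = 1) (hne : n e = 1)

/-- the vectors of two places -/
noncomputable def EV (σ : K p →+* ℂ) (τ : K e →+* ℂ) : Fin (r p) ⊕ Fin (r e) → HW κ n :=
  Sum.elim (fun j => slotL n p (ix1 n hnp) ((F p).e σ j))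
    (fun j => slotL n e (ix1 n hne) ((F e).e τ j))

/-- the matrix of a symmetry -/
noncomputable def cV (σ : K p →+* ℂ) (τ : K e →+* ℂ) (X : GG κ)
    (s t : Fin (r p) ⊕ Fin (r e)) : ℂ :=
  match s, t with
  | .inl s, .inl t => (F p).co σ s (X.1 p ((F p).e σ t))
  | .inr s, .inr t => (F e).co τ s (X.1 e ((F e).e τ t))
  | _, _ => 0

lemma lift_EV {l : ℕ} (M : MultilinearMap ℂ (fun _ : Fin (2 * l) => HW κ n) ℂ)
    (σ : K p →+* ℂ) (τ : K e →+* ℂ) (X : GG κ) (hX : IsInv n P M X)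
    (t : Fin (r p) ⊕ Fin (r e)) : lift n X.1 (EV n P F hnp hne σ τ t) =
      ∑ s, cV P F σ τ X s t • EV n P F hnp hne σ τ s := by
  rw [Fintype.sum_sum_type]
  rcases t with t | t
  · show lift n X.1 (slotL n p (ix1 n hnp) ((F p).e σ t)) =
      ∑ s, (F p).co σ s (X.1 p ((F p).e σ t)) • slotL n p (ix1 n hnp) ((F p).e σ s) +
      ∑ s, (0 : ℂ) • slotL n e (ix1 n hne) ((F e).e τ s)
    simp only [zero_smul, Finset.sum_const_zero, add_zero]
    rw [lift_slot, comm_e (F p) (X.1 p) (commK n P F M hX p) σ t, map_sum]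
    refine Finset.sum_congr rfl fun s _ => ?_
    rw [map_smul, ← comm_e (F p) (X.1 p) (commK n P F M hX p) σ t]
  · show lift n X.1 (slotL n e (ix1 n hne) ((F e).e τ t)) =
      ∑ s, (0 : ℂ) • slotL n p (ix1 n hnp) ((F p).e σ s) +
      ∑ s, (F e).co τ s (X.1 e ((F e).e τ t)) • slotL n e (ix1 n hne) ((F e).e τ s)
    simp only [zero_smul, Finset.sum_const_zero, zero_add]
    rw [lift_slot, comm_e (F e) (X.1 e) (commK n P F M hX e) τ t, map_sum]
    refine Finset.sum_congr rfl fun s _ => ?_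
    rw [map_smul, ← comm_e (F e) (X.1 e) (commK n P F M hX e) τ t]

lemma trace_cV (hr : ∀ i, 0 < r i) (σ : K p →+* ℂ) (τ : K e →+* ℂ) (X : GG κ) :
    ∑ t, cV P F σ τ X t t = r p * ch P F ⟨p, σ⟩ X + r e * ch P F ⟨e, τ⟩ X := by
  rw [Fintype.sum_sum_type]
  have h1 : ch P F ⟨p, σ⟩ X = (∑ j, (F p).co σ j (X.1 p ((F p).e σ j))) / r p := rfl
  have h2 : ch P F ⟨e, τ⟩ X = (∑ j, (F e).co τ j (X.1 e ((F e).e τ j))) / r e := rfl
  have h3 : (r p : ℂ) ≠ 0 := by exact_mod_cast (hr p).ne'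
  have h4 : (r e : ℂ) ≠ 0 := by exact_mod_cast (hr e).ne'
  rw [h1, h2, mul_div_cancel₀ _ h3, mul_div_cancel₀ _ h4]
  rfl

section J

variable (J : Module.End ℂ (HW κ n)) {z : ℂ} (hz : z ≠ 0) (x : K p) (y : K e)
  (hJp : ∀ u, J (slotL n p (ix1 n hnp) u) = slotL n p (ix1 n hnp) ((F p).ρ x u))
  (hJe : ∀ u, J (slotL n e (ix1 n hne) u) = slotL n e (ix1 n hne) ((F e).ρ y u))
  (σ : K p →+* ℂ) (τ : K e →+* ℂ)
  (hσ : ∀ σ', σ' = σ ∨ σ' = ComplexEmbedding.conjugate σ)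
  (hτ : ∀ τ', τ' = τ ∨ τ' = ComplexEmbedding.conjugate τ)
  (hx : σ x = z) (hx' : ComplexEmbedding.conjugate σ x = -z)
  (hy : τ y = z) (hy' : ComplexEmbedding.conjugate τ y = -z)

include hJp in
lemma J_EEp (ν : K p →+* ℂ) (u : HW κ n) :
    J (Helper24.EE n P F (at1 n hnp ν) u) = ν x • Helper24.EE n P F (at1 n hnp ν) u := by
  show J (slotL n p (ix1 n hnp) (proj (F p).ρ ν (u p (ix1 n hnp)))) =
    ν x • slotL n p (ix1 n hnp) (proj (F p).ρ ν (u p (ix1 n hnp)))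
  rw [hJp, ← Module.End.mul_apply, rho_mul_proj, LinearMap.smul_apply, map_smul]

lemma EEp_mem (ν : K p →+* ℂ) (ν' : K e →+* ℂ) (u : HW κ n) :
    Helper24.EE n P F (at1 n hnp ν) u ∈
      Submodule.span ℂ (Set.range (EV n P F hnp hne ν ν')) := by
  show slotL n p (ix1 n hnp) (proj (F p).ρ ν (u p (ix1 n hnp))) ∈ _
  rw [(F p).proj_eq, map_sum]
  refine Submodule.sum_mem _ fun j _ => ?_
  rw [map_smul]
  exact Submodule.smul_mem _ _ (Submodule.subset_span ⟨.inl j, rfl⟩)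

lemma EEe_mem (ν : K p →+* ℂ) (ν' : K e →+* ℂ) (u : HW κ n) :
    Helper24.EE n P F (at1 n hne ν') u ∈
      Submodule.span ℂ (Set.range (EV n P F hnp hne ν ν')) := by
  show slotL n e (ix1 n hne) (proj (F e).ρ ν' (u e (ix1 n hne))) ∈ _
  rw [(F e).proj_eq, map_sum]
  refine Submodule.sum_mem _ fun j _ => ?_
  rw [map_smul]
  exact Submodule.smul_mem _ _ (Submodule.subset_span ⟨.inr j, rfl⟩)

include hI hz hJp hJe hσ hτ hx hx' hy hy' in
lemma prJ_mem (u : HW κ n) :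
    prJ J z u ∈ Submodule.span ℂ (Set.range (EV n P F hnp hne σ τ)) := by
  rw [← Helper24.sum_EE n P F u, map_sum]
  refine Submodule.sum_mem _ fun t _ => ?_
  rcases atoms31 n hI hnp hne σ τ hσ hτ t with rfl | rfl | rfl | rfl
  · rw [prJ_of_eigen hz (by rw [J_EEp n P F hnp J x hJp, hx])]
    exact EEp_mem n P F hnp hne σ τ u
  · rw [prJ_of_eigen' hz (by rw [J_EEp n P F hnp J x hJp, hx'])]
    exact Submodule.zero_mem _
  · rw [prJ_of_eigen hz (by rw [J_EEp n P F hne J y hJe, hy])]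
    exact EEe_mem n P F hnp hne σ τ u
  · rw [prJ_of_eigen' hz (by rw [J_EEp n P F hne J y hJe, hy'])]
    exact Submodule.zero_mem _

variable (hJJ : ∀ u, J (J u) = z ^ 2 • u) (d : ℚ) (hd : 0 < d) (hzd : z ^ 2 = -(d : ℂ))
  (hJQ : ∀ u, IsRatP n P u → IsRatP n P (J u))
  {ι : Type} [Fintype ι] [DecidableEq ι] (w : (HW κ n) [⋀^ι]→ₗ[ℂ] ℂ)
  (hbal : ∀ v r s, w (Function.update v r (J (v r))) = w (Function.update v s (J (v s))))
  (hw0 : w ≠ 0) (c : ℂ) (hc : c ≠ 0)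
  (hBw : ∀ v : ι → HW κ n, (∀ r, IsRatP n P (v r)) → ∃ q : ℚ, w v = c * q)
  (ε : ι ≃ Fin (r p) ⊕ Fin (r e))

include hI hz hJp hJe hσ hτ hx hx' hy hy' hJJ hd hzd hJQ hbal hw0 hc hBw in
/-- a non-zero balanced rational form does not vanish on the vectors of the two places -/
lemma weil_ne (r0 : ι) : w (fun s => EV n P F hnp hne σ τ (ε s)) ≠ 0 := by
  intro h0
  apply hw0
  have : Nonempty ι := ⟨r0⟩
  refine rat_zero n P w c hc hBw J hJQ z d hd hzd r0 (fun v => bal_neg hz hJJ w hbal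
    (fun v hv => alt_span_zero w _ h0 v (fun s => ?_)) v r0)
  have h1 := prJ_mem n P F hI hnp hne J hz x y hJp hJe σ τ hσ hτ hx hx' hy hy' (v s)
  rw [prJ_of_eigen hz (hv s)] at h1
  have h2 : Set.range (fun s => EV n P F hnp hne σ τ (ε s)) = Set.range (EV n P F hnp hne σ τ) :=
    ε.surjective.range_comp (EV n P F hnp hne σ τ)
  rw [h2]
  exact h1

include hI hz hJp hJe hσ hτ hx hx' hy hy' hJJ hd hzd hJQ hbal hw0 hc hBw ε in
/-- the multiplier of a balanced rational form -/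
lemma weil_mult (hr : ∀ i, 0 < r i) {l : ℕ}
    (M : MultilinearMap ℂ (fun _ : Fin (2 * l) => HW κ n) ℂ)
    (r0 : ι) (X : GG κ) (hX : IsInv n P M X) (b : ℂ)
    (hb : actForm (lift n X.1) (w : MultilinearMap ℂ (fun _ : ι => HW κ n) ℂ) = b •
      (w : MultilinearMap ℂ (fun _ : ι => HW κ n) ℂ)) :
    b = r p * ch P F ⟨p, σ⟩ X + r e * ch P F ⟨e, τ⟩ X := by
  rw [← trace_cV P F hr σ τ X]
  exact eigen_trace ε w (EV n P F hnp hne σ τ) (lift n X.1) (cV P F σ τ X)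
    (lift_EV n P F hnp hne M σ τ X hX) b hb
    (weil_ne n P F hI hnp hne J hz x y hJp hJe σ τ hσ hτ hx hx' hy hy' hJJ d hd hzd hJQ w hbal hw0
      c hc hBw ε r0)

end J

end family

end Pool.Agent.Helper7
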