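import Pool.Agent.Helper7.AF.Q31b

/-!
A threefold and an elliptic curve with the same imaginary quadratic field: every form is in the
complex span of products of divisor classes and of Weil classes.
-/

namespace Pool.Agent.Helper7

open Module NumberField LieAlgebra Pool.Agent.Helper24

attribute [local instance 100] LieRing.ofAssociativeRing

open Pool.Agent.GPC (Emb IsOdd IsOddModule translate)
open Pool.Agent.Helper8 (SF SF0 PS symG invF invF_symG SF.toSF0 SF.factor SF.mem_of_factor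
  mem_of_PS)

set_option linter.unusedSectionVars false

section family

variable {I : Type} [Fintype I] [DecidableEq I] (n : I → ℕ)
  {κ : I → Type} [∀ i, Fintype (κ i)] [∀ i, DecidableEq (κ i)] {ϖ : ℂ}
  (P : ∀ i, PData (κ i) ϖ)
  {K : I → Type} [∀ i, Field (K i)] [∀ i, NumberField (K i)] {r : I → ℕ}
  (F : ∀ i, UF (P i) (K i) (r i))

/-- a factor of rank one has a symmetry with different weights at the two places -/
lemma exists_weight {l : ℕ} (M : MultilinearMap ℂ (fun _ : Fin (2 * l) => HW κ n) ℂ)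
    (hϖ : ϖ ≠ 0)
    (hB : ∀ v : Fin (2 * l) → HW κ n, (∀ r, IsRatP n P (v r)) → ∃ q : ℚ, M v = ϖ ^ l * q)
    (hA : ∀ v : Fin (2 * l) → HW κ n, (∀ r i m j, IsAlgebraic ℚ (v r i m j)) →
      IsAlgebraic ℚ (M v)) (hr : ∀ i, 0 < r i) (e : I) (hre : r e = 1)
    (hT : ∀ v ∈ (P e).Q, v ≠ 0 →
      ¬ ∃ (w : ℂ) (u : κ e → ℂ), (∀ j, IsAlgebraic ℚ (u j)) ∧ v = w • u)
    (τ : K e →+* ℂ) (hτ : ∀ τ', τ' = τ ∨ τ' = ComplexEmbedding.conjugate τ) :
    ∃ X, IsInv n P M X ∧ ch P F ⟨e, τ⟩ X ≠ ch P F ⟨e, ComplexEmbedding.conjugate τ⟩ X := by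
  classical
  by_contra hcon
  push Not at hcon
  obtain ⟨w, hw1, hw2, hw3⟩ := Helper24.relS_ne n P F M hϖ hB hA hr e hre hT
  apply hw3
  rw [Helper24.mem_relS]
  refine ⟨hw1, fun X hX _ => ?_⟩
  have h1 : ∀ t : Emb K, (w t : ℂ) * ch P F t X = X.2 / 2 * (w t : ℂ) := by
    rintro ⟨i, ν⟩
    by_cases hi : i = e
    · subst hi
      have h2 : ch P F ⟨i, τ⟩ X + ch P F ⟨i, ComplexEmbedding.conjugate τ⟩ X = X.2 :=
        Helper24.ch_conj n P F M hr ⟨i, τ⟩ X hX
      have h3 := hcon X hX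
      rcases hτ ν with rfl | rfl
      · linear_combination (w ⟨i, ν⟩ : ℂ) / 2 * h2 + (w ⟨i, ν⟩ : ℂ) / 2 * h3
      · linear_combination (w ⟨i, ComplexEmbedding.conjugate τ⟩ : ℂ) / 2 * h2 -
          (w ⟨i, ComplexEmbedding.conjugate τ⟩ : ℂ) / 2 * h3
    · rw [hw2 i ν hi]; simp
  rw [Finset.sum_congr rfl fun t _ => h1 t, ← Finset.mul_sum]
  have h4 : ∑ t : Emb K, w t = 0 := by
    have h5 : ∑ t : Emb K, w t = ∑ t : Emb K, w (conjT t) :=
      (Fintype.sum_equiv ⟨conjT, conjT, conjT_conjT, conjT_conjT⟩ (fun t => w (conjT t)) w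
        (fun _ => rfl)).symm
    have h6 : ∀ t : Emb K, w (conjT t) = - w t := by
      rintro ⟨i, ν⟩
      exact hw1 i ν
    rw [Finset.sum_congr rfl fun t _ => h6 t, Finset.sum_neg_distrib] at h5
    linarith
  have h7 : ∑ t : Emb K, (w t : ℂ) = 0 := by exact_mod_cast h4
  rw [h7, mul_zero]

variable {p e : I} (hI : ∀ j, j = p ∨ j = e) (hnp : n p = 1) (hne : n e = 1)
  (hpe : p ≠ e) (hrp : r p = 3) (hre : r e = 1)
  (J : Module.End ℂ (HW κ n)) {z : ℂ} (hz : z ≠ 0) (x : K p) (y : K e)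
  (hJp : ∀ u, J (slotL n p (ix1 n hnp) u) = slotL n p (ix1 n hnp) ((F p).ρ x u))
  (hJe : ∀ u, J (slotL n e (ix1 n hne) u) = slotL n e (ix1 n hne) ((F e).ρ y u))
  (σ : K p →+* ℂ) (τ : K e →+* ℂ)
  (hσ : ∀ σ', σ' = σ ∨ σ' = ComplexEmbedding.conjugate σ)
  (hτ : ∀ τ', τ' = τ ∨ τ' = ComplexEmbedding.conjugate τ)
  (hσ' : ComplexEmbedding.conjugate σ ≠ σ) (hτ' : ComplexEmbedding.conjugate τ ≠ τ)
  (hx : σ x = z) (hx' : ComplexEmbedding.conjugate σ x = -z)
  (hy : τ y = z) (hy' : ComplexEmbedding.conjugate τ y = -z)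
  (hJJ : ∀ u, J (J u) = z ^ 2 • u) (d : ℚ) (hd : 0 < d) (hzd : z ^ 2 = -(d : ℂ))
  (hJQ : ∀ u, IsRatP n P u → IsRatP n P (J u))
  (w : (HW κ n) [⋀^Fin (2 * 2)]→ₗ[ℂ] ℂ)
  (hbal : ∀ v r s, w (Function.update v r (J (v r))) = w (Function.update v s (J (v s))))
  (hw0 : w ≠ 0) (hϖ : ϖ ≠ 0)
  (hBw : ∀ v : Fin (2 * 2) → HW κ n, (∀ r, IsRatP n P (v r)) → ∃ q : ℚ, w v = ϖ ^ 2 * q)
  (hAw : ∀ v : Fin (2 * 2) → HW κ n, (∀ r i m j, IsAlgebraic ℚ (v r i m j)) →
      IsAlgebraic ℚ (w v))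
  (hT : ∀ v ∈ (P e).Q, v ≠ 0 →
      ¬ ∃ (w : ℂ) (u : κ e → ℂ), (∀ j, IsAlgebraic ℚ (u j)) ∧ v = w • u)
  {k : ℕ} (α : (HW κ n) [⋀^Fin (2 * k)]→ₗ[ℂ] ℂ)
  (hB : ∀ v : Fin (2 * k) → HW κ n, (∀ r, IsRatP n P (v r)) → ∃ q : ℚ, α v = ϖ ^ k * q)
  (hA : ∀ v : Fin (2 * k) → HW κ n, (∀ r i m j, IsAlgebraic ℚ (v r i m j)) →
      IsAlgebraic ℚ (α v))

include hI hpe hrp hre hz hJp hJe hσ hτ hσ' hτ' hx hx' hy hy' hJJ hd hzd hJQ hbal hw0 hϖ hBw hAw
  hT hB hA in
theorem q31_core : (k = 2 ∧ α - weilPart J z α ∈ Submodule.span ℂ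
      {ω | ∃ γ : Fin k → (HW κ n →ₗ[ℂ] HW κ n →ₗ[ℂ] ℂ), (∀ a, γ a ∈ GW n P) ∧ ω = wedge γ}) ∨
    (α ∈ Submodule.span ℂ
      {ω | ∃ γ : Fin k → (HW κ n →ₗ[ℂ] HW κ n →ₗ[ℂ] ℂ), (∀ a, γ a ∈ GW n P) ∧ ω = wedge γ}) := by
  classical
  by_cases hα0 : α = 0
  · right
    rw [hα0]
    exact Submodule.zero_mem _
  have hr : ∀ i, 0 < r i := by
    intro i
    rcases hI i with rfl | rfl
    · omega
    · omega
  -- the product
  obtain ⟨a, ha⟩ : ∃ a, a = (α : MultilinearMap ℂ (fun _ : Fin (2 * k) => HW κ n) ℂ) := ⟨_, rfl⟩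
  obtain ⟨b, hb⟩ : ∃ b, b = (w : MultilinearMap ℂ (fun _ : Fin (2 * 2) => HW κ n) ℂ) := ⟨_, rfl⟩
  have ha0 : a ≠ 0 := by
    rw [ha]
    intro h
    apply hα0
    ext v
    exact congrArg (fun g => g v) h
  have hb0 : b ≠ 0 := by
    rw [hb]
    intro h
    apply hw0
    ext v
    exact congrArg (fun g => g v) h
  obtain ⟨M, hM⟩ : ∃ M, M = pairForm a b := ⟨_, rfl⟩
  have hBM : ∀ v : Fin (2 * (k + 2)) → HW κ n, (∀ r, IsRatP n P (v r)) →
      ∃ q : ℚ, M v = ϖ ^ (k + 2) * q := by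
    intro v hv
    obtain ⟨q1, h1⟩ := hB (fun i => v (pairE k 2 (.inl i))) (fun i => hv _)
    obtain ⟨q2, h2⟩ := hBw (fun i => v (pairE k 2 (.inr i))) (fun i => hv _)
    refine ⟨q1 * q2, ?_⟩
    rw [hM, pairForm_apply, ha, hb]
    show α _ * w _ = _
    rw [h1, h2, pow_add]
    push_cast
    ring
  have hAM : ∀ v : Fin (2 * (k + 2)) → HW κ n, (∀ r i m j, IsAlgebraic ℚ (v r i m j)) →
      IsAlgebraic ℚ (M v) := by
    intro v hv
    rw [hM, pairForm_apply, ha, hb]
    exact (hA _ (fun r i m j => hv _ i m j)).mul (hAw _ (fun r i m j => hv _ i m j))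
  -- the symmetries
  have hirr : ∀ s, LieModule.IsIrreducible ℂ (Helper24.LL n P F M) (Helper24.Vs n P F M s) :=
    fun s => Helper24.Vs_irr n P F M hϖ hBM hAM s (hr s.1)
  have htr := Helper24.LL_trivialRadical n P F M hϖ hBM hAM hr
  have hk : IsKilling ℂ (Helper24.LL n P F M) := inferInstance
  obtain ⟨ε⟩ : Nonempty (Fin (2 * 2) ≃ Fin (r p) ⊕ Fin (r e)) :=
    ⟨(finCongr (by rw [hrp, hre])).trans finSumFinEquiv.symm⟩
  have hsym : ∀ X, IsInv n P M X → actForm (lift n X.1) a = (k * X.2) • a ∧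
      3 * (ch P F ⟨p, σ⟩ X - ch P F ⟨p, ComplexEmbedding.conjugate σ⟩ X) + (ch P F ⟨e, τ⟩ X -
      ch P F ⟨e, ComplexEmbedding.conjugate τ⟩ X) = 0 := by
    intro X hX
    have h0 := hX.form
    rw [hM] at h0
    obtain ⟨c', h1, h2⟩ := eigen_of_pair (lift n X.1) a b ha0 hb0 _ h0
    rw [hb] at h2
    have e1 := weil_mult n P F hI hnp hne J hz x y hJp hJe σ τ hσ hτ hx hx' hy hy' hJJ d hd hzd hJQ
      w hbal hw0 (ϖ ^ 2) (pow_ne_zero _ hϖ) hBw ε hr M 0 X hX c' h2
    have cc : ∀ {L : Type} [Field L] (ν : L →+* ℂ),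
        ComplexEmbedding.conjugate (ComplexEmbedding.conjugate ν) = ν := fun ν => by
      ext t
      rw [ComplexEmbedding.conjugate_coe_eq, ComplexEmbedding.conjugate_coe_eq, Complex.conj_conj]
    have e2 := weil_mult n P F hI hnp hne J (neg_ne_zero.mpr hz) x y hJp hJe
      (ComplexEmbedding.conjugate σ) (ComplexEmbedding.conjugate τ)
      (fun σ' => by rw [cc]; exact (hσ σ').symm) (fun τ' => by rw [cc]; exact (hτ τ').symm)
      hx' (by rw [cc, hx, neg_neg]) hy' (by rw [cc, hy, neg_neg])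
      (fun u => by rw [hJJ, neg_sq]) d hd (by rw [neg_sq, hzd]) hJQ
      w hbal hw0 (ϖ ^ 2) (pow_ne_zero _ hϖ) hBw ε hr M 0 X hX c' h2
    have e3 : ch P F ⟨p, σ⟩ X + ch P F ⟨p, ComplexEmbedding.conjugate σ⟩ X = X.2 :=
      Helper24.ch_conj n P F M hr ⟨p, σ⟩ X hX
    have e4 : ch P F ⟨e, τ⟩ X + ch P F ⟨e, ComplexEmbedding.conjugate τ⟩ X = X.2 :=
      Helper24.ch_conj n P F M hr ⟨e, τ⟩ X hX
    rw [hrp, hre] at e1 e2
    push_cast at e1 e2
    have e5 : c' = 2 * X.2 := by
      linear_combination (1 / 2 : ℂ) * e1 + (1 / 2 : ℂ) * e2 + (3 / 2 : ℂ) * e3 +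
        (1 / 2 : ℂ) * e4
    refine ⟨?_, by linear_combination e2 - e1⟩
    rw [h1, e5]
    congr 1
    push_cast
    ring
  have hne0 := exists_weight n P F M hϖ hBM hAM hr e hre hT τ hτ
  have hlab := fun at' => label31 n P F M hI hnp hne σ τ hσ hτ hpe hrp hre hσ' hτ' hr hk hirr
    (fun X hX => (hsym X hX).2) hne0 at' _ (SF_label' n P F M α (fun X hX => by
      have := (hsym X hX).1
      rw [ha] at this
      exact this) at')
  have cc : ∀ {L : Type} [Field L] (ν : L →+* ℂ),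
      ComplexEmbedding.conjugate (ComplexEmbedding.conjugate ν) = ν := fun ν => by
    ext t
    rw [ComplexEmbedding.conjugate_coe_eq, ComplexEmbedding.conjugate_coe_eq, Complex.conj_conj]
  by_cases hk2 : k = 2
  · left
    refine ⟨hk2, ?_⟩
    refine wedge_of_span2 n P M hϖ hBM hAM _ ?_
    refine mem_of_PS _ ?_
    have h1 : (fun v => ((α - weilPart J z α : (HW κ n) [⋀^Fin (2 * k)]→ₗ[ℂ] ℂ) :
        MultilinearMap ℂ (fun _ : Fin (2 * k) => HW κ n) ℂ) v) =
        ∑ a : Fin (2 * k) → At n K, (fun v : Fin (2 * k) → HW κ n =>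
          (α - weilPart J z α) (fun r => Helper24.EE n P F (a r) (v r))) := by
      funext v
      rw [Finset.sum_apply]
      exact Helper24.sum_labels n P F (α - weilPart J z α) v
    rw [h1]
    refine Submodule.sum_mem _ fun t _ => ?_
    -- eigenvalues at the atoms
    have jp : ∀ u, J (Helper24.EE n P F (at1 n hnp σ) u) = z • Helper24.EE n P F (at1 n hnp σ) u :=
      fun u => by rw [J_EEp n P F hnp J x hJp, hx]
    have jp' : ∀ u, J (Helper24.EE n P F (at1 n hnp (ComplexEmbedding.conjugate σ)) u) =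
        -z • Helper24.EE n P F (at1 n hnp (ComplexEmbedding.conjugate σ)) u :=
      fun u => by rw [J_EEp n P F hnp J x hJp, hx']
    have je : ∀ u, J (Helper24.EE n P F (at1 n hne τ) u) = z • Helper24.EE n P F (at1 n hne τ) u :=
      fun u => by rw [J_EEp n P F hne J y hJe, hy]
    have je' : ∀ u, J (Helper24.EE n P F (at1 n hne (ComplexEmbedding.conjugate τ)) u) =
        -z • Helper24.EE n P F (at1 n hne (ComplexEmbedding.conjugate τ)) u :=
      fun u => by rw [J_EEp n P F hne J y hJe, hy']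
    have hz' : -z ≠ 0 := neg_ne_zero.mpr hz
    have r0 : Fin (2 * k) := ⟨0, by omega⟩
    by_cases hm : (∀ s, t s = at1 n hnp σ ∨ t s = at1 n hne τ) ∨
      (∀ s, t s = at1 n hnp (ComplexEmbedding.conjugate σ) ∨
        t s = at1 n hne (ComplexEmbedding.conjugate τ))
    · -- the same eigenspace in all slots
      have h2 : (fun v : Fin (2 * k) → HW κ n =>
          (α - weilPart J z α) (fun r => Helper24.EE n P F (t r) (v r))) = 0 := by
        funext v
        rw [AlternatingMap.sub_apply, weilPart_apply, Pi.zero_apply, sub_eq_zero]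
        rcases hm with hm | hm
        · have e1 : ∀ s, prJ J z (Helper24.EE n P F (t s) (v s)) =
              Helper24.EE n P F (t s) (v s) := by
            intro s
            rcases hm s with h | h
            · rw [h]; exact prJ_of_eigen hz (jp _)
            · rw [h]; exact prJ_of_eigen hz (je _)
          have e2 : prJ J (-z) (Helper24.EE n P F (t r0) (v r0)) = 0 := by
            rcases hm r0 with h | h
            · rw [h]; exact prJ_of_eigen' hz' (by rw [neg_neg]; exact jp _)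
            · rw [h]; exact prJ_of_eigen' hz' (by rw [neg_neg]; exact je _)
          have e3 : α (fun r => prJ J (-z) (Helper24.EE n P F (t r) (v r))) = 0 :=
            α.map_coord_zero r0 e2
          rw [e3, add_zero]
          congr 1
          funext s
          exact (e1 s).symm
        · have e1 : ∀ s, prJ J (-z) (Helper24.EE n P F (t s) (v s)) =
              Helper24.EE n P F (t s) (v s) := by
            intro s
            rcases hm s with h | h
            · rw [h]; exact prJ_of_eigen hz' (jp' _)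
            · rw [h]; exact prJ_of_eigen hz' (je' _)
          have e2 : prJ J z (Helper24.EE n P F (t r0) (v r0)) = 0 := by
            rcases hm r0 with h | h
            · rw [h]; exact prJ_of_eigen' hz (jp' _)
            · rw [h]; exact prJ_of_eigen' hz (je' _)
          have e3 : α (fun r => prJ J z (Helper24.EE n P F (t r) (v r))) = 0 :=
            α.map_coord_zero r0 e2
          rw [e3, zero_add]
          congr 1
          funext s
          exact (e1 s).symm
      rw [h2]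
      exact Submodule.zero_mem _
    · -- different eigenspaces
      have h3 := (hlab t).resolve_right (fun h => hm h.2)
      have h2 : (fun v : Fin (2 * k) → HW κ n =>
          (α - weilPart J z α) (fun r => Helper24.EE n P F (t r) (v r))) =
          fun v => α (fun r => Helper24.EE n P F (t r) (v r)) := by
        funext v
        rw [AlternatingMap.sub_apply, weilPart_apply, sub_eq_self]
        push Not at hm
        obtain ⟨⟨s1, h1a, h1b⟩, ⟨s2, h2a, h2b⟩⟩ := hm
        have e1 : α (fun r => prJ J z (Helper24.EE n P F (t r) (v r))) = 0 := by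
          refine α.map_coord_zero s1 ?_
          rcases atoms31 n hI hnp hne σ τ hσ hτ (t s1) with h | h | h | h
          · exact absurd h h1a
          · beta_reduce; rw [h]; exact prJ_of_eigen' hz (jp' _)
          · exact absurd h h1b
          · beta_reduce; rw [h]; exact prJ_of_eigen' hz (je' _)
        have e2 : α (fun r => prJ J (-z) (Helper24.EE n P F (t r) (v r))) = 0 := by
          refine α.map_coord_zero s2 ?_
          rcases atoms31 n hI hnp hne σ τ hσ hτ (t s2) with h | h | h | h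
          · beta_reduce; rw [h]; exact prJ_of_eigen' hz' (by rw [neg_neg]; exact jp _)
          · exact absurd h h2a
          · beta_reduce; rw [h]; exact prJ_of_eigen' hz' (by rw [neg_neg]; exact je _)
          · exact absurd h h2b
        rw [e1, e2, add_zero]
      rw [h2]
      exact h3
  · right
    refine wedge_of_span2 n P M hϖ hBM hAM _ ?_
    refine mem_of_PS _ ?_
    have h1 : (fun v => (α : MultilinearMap ℂ (fun _ : Fin (2 * k) => HW κ n) ℂ) v) =
        ∑ a : Fin (2 * k) → At n K, (fun v : Fin (2 * k) → HW κ n =>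
          α (fun r => Helper24.EE n P F (a r) (v r))) := by
      funext v
      rw [Finset.sum_apply]
      exact Helper24.sum_labels n P F α v
    rw [h1]
    exact Submodule.sum_mem _ fun t _ => (hlab t).resolve_right (fun h => hk2 h.1)

end family

end Pool.Agent.Helper7
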